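import Mathlib

/-!
Generic Hilbert function of triple points (MP_7123bd_ag): basic definitions.

* `PolyFun E`: polynomial functions on a complex vector space `E` (of any dimension).
* `Gen Q`: the property `Q` holds on a nonempty Zariski open (principal) subset of `E`.
* `PolyMap F`: polynomial maps.
* `lf b`: the linear form with coefficient vector `b`.
* `W d B`: the span of all `(lf (B i))^(d-2) * q`, `q` a quadratic form.
-/

namespace Pool.Agent.Helper93.TP

open MvPolynomial

/-- Polynomial functions on a complex vector space. -/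
def PolyFun (E : Type*) [AddCommGroup E] [Module ℂ E] : Subalgebra ℂ (E → ℂ) :=
  Algebra.adjoin ℂ (Set.range fun (l : E →ₗ[ℂ] ℂ) => (fun x => l x))

/-- `Q` holds generically on `E`. -/
def Gen {E : Type*} [AddCommGroup E] [Module ℂ E] (Q : E → Prop) : Prop :=
  ∃ φ ∈ PolyFun E, φ ≠ 0 ∧ ∀ x, φ x ≠ 0 → Q x

/-- Polynomial maps between complex vector spaces. -/
def PolyMap {E T : Type*} [AddCommGroup E] [Module ℂ E] [AddCommGroup T] [Module ℂ T]
    (F : E → T) : Prop :=
  ∃ (k : ℕ) (φ : Fin k → E → ℂ) (t : Fin k → T),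
    (∀ i, φ i ∈ PolyFun E) ∧ ∀ x, F x = ∑ i, φ i x • t i

section Forms

variable {σ : Type*} [Fintype σ]

/-- The linear form with coefficient vector `b`. -/
noncomputable def lf (b : σ → ℂ) : MvPolynomial σ ℂ := ∑ i, b i • X i

/-- The span of all `(lf (B i))^(d-2) * q` with `q` a quadratic form. -/
noncomputable def W (d : ℕ) {ι : Type*} (B : ι → σ → ℂ) : Submodule ℂ (MvPolynomial σ ℂ) :=
  ⨆ i, (homogeneousSubmodule σ ℂ 2).map (LinearMap.mulLeft ℂ (lf (B i) ^ (d - 2)))

/-- The generic rank: the maximum of `dim W d B` over all `B : Fin r → σ → ℂ`. -/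
noncomputable def rk (σ : Type*) [Fintype σ] (d r : ℕ) : ℕ :=
  sSup (Set.range fun B : Fin r → σ → ℂ => Module.finrank ℂ (W d B))

end Forms

section Hilbert

/-- The homogeneous ideal of the point `[P]` of projective space: all polynomials which
vanish on the line through `P`. -/
def ptIdeal {n : ℕ} (P : Fin (n + 1) → ℂ) : Ideal (MvPolynomial (Fin (n + 1)) ℂ) where
  carrier := {f | ∀ t : ℂ, eval (t • P) f = 0}
  add_mem' := by
    intro a b ha hb t
    simp only [Set.mem_setOf_eq] at ha hb
    rw [map_add, ha t, hb t, add_zero]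
  zero_mem' := by
    intro t
    simp
  smul_mem' := by
    intro c f hf t
    simp only [Set.mem_setOf_eq] at hf
    rw [smul_eq_mul, map_mul, hf t, mul_zero]

/-- The value in degree `d` of the Hilbert function of `R/I`: the dimension of the image
of the space of forms of degree `d` in `R/I`. -/
noncomputable def hilb {n : ℕ} (I : Ideal (MvPolynomial (Fin (n + 1)) ℂ)) (d : ℕ) : ℕ :=
  Module.finrank ℂ
    ((homogeneousSubmodule (Fin (n + 1)) ℂ d).map (Ideal.Quotient.mkₐ ℂ I).toLinearMap)

/-- The `m`-th symbolic power of the ideal of the points `[Y 0], ..., [Y (r-1)]`. -/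
noncomputable def symPow {n r : ℕ} (Y : Fin r → Fin (n + 1) → ℂ) (m : ℕ) :
    Ideal (MvPolynomial (Fin (n + 1)) ℂ) :=
  ⨅ i, ptIdeal (Y i) ^ m

/-- `GenHilb n r m d h`: for `r` general points `Y` of `n`-dimensional projective space the
Hilbert function of `R/I_Y^{(m)}` has the value `h` in degree `d`. -/
def GenHilb (n r m d h : ℕ) : Prop :=
  ∃ Φ : MvPolynomial (Fin r × Fin (n + 1)) ℂ, Φ ≠ 0 ∧
    ∀ Y : Fin r → Fin (n + 1) → ℂ, eval (fun p => Y p.1 p.2) Φ ≠ 0 → hilb (symPow Y m) d = h

end Hilbert

end Pool.Agent.Helper93.TP
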