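import Mathlib
import Pool.Agent.Helper93.TP.Defs

/-!
Toolkit for the generic quantifier `Gen`, polynomial functions and polynomial maps.
-/

namespace Pool.Agent.Helper93.TP

variable {E F T : Type*} [AddCommGroup E] [Module ℂ E] [AddCommGroup F] [Module ℂ F]
  [AddCommGroup T] [Module ℂ T]

/-! ### Polynomial functions -/

theorem PolyFun.linear (l : E →ₗ[ℂ] ℂ) : (fun x => l x) ∈ PolyFun E :=
  Algebra.subset_adjoin ⟨l, rfl⟩

theorem PolyFun.const (c : ℂ) : (fun _ => c) ∈ PolyFun E := by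
  have := (PolyFun E).algebraMap_mem c
  exact this

theorem PolyFun.one : (fun _ : E => (1 : ℂ)) ∈ PolyFun E := PolyFun.const 1

theorem PolyFun.zero : (fun _ : E => (0 : ℂ)) ∈ PolyFun E := PolyFun.const 0

theorem PolyFun.add {φ ψ : E → ℂ} (h : φ ∈ PolyFun E) (h' : ψ ∈ PolyFun E) :
    (fun x => φ x + ψ x) ∈ PolyFun E := (PolyFun E).add_mem h h'

theorem PolyFun.sub {φ ψ : E → ℂ} (h : φ ∈ PolyFun E) (h' : ψ ∈ PolyFun E) :
    (fun x => φ x - ψ x) ∈ PolyFun E := (PolyFun E).sub_mem h h'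

theorem PolyFun.mul {φ ψ : E → ℂ} (h : φ ∈ PolyFun E) (h' : ψ ∈ PolyFun E) :
    (fun x => φ x * ψ x) ∈ PolyFun E := (PolyFun E).mul_mem h h'

theorem PolyFun.smul (c : ℂ) {φ : E → ℂ} (h : φ ∈ PolyFun E) :
    (fun x => c * φ x) ∈ PolyFun E := PolyFun.mul (PolyFun.const c) h

theorem PolyFun.pow {φ : E → ℂ} (h : φ ∈ PolyFun E) (n : ℕ) :
    (fun x => φ x ^ n) ∈ PolyFun E := (PolyFun E).pow_mem h n

theorem PolyFun.sum {ι : Type*} (s : Finset ι) {φ : ι → E → ℂ}
    (h : ∀ i ∈ s, φ i ∈ PolyFun E) : (fun x => ∑ i ∈ s, φ i x) ∈ PolyFun E := by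
  have := (PolyFun E).sum_mem h
  convert this using 1
  ext x
  simp

theorem PolyFun.prod {ι : Type*} (s : Finset ι) {φ : ι → E → ℂ}
    (h : ∀ i ∈ s, φ i ∈ PolyFun E) : (fun x => ∏ i ∈ s, φ i x) ∈ PolyFun E := by
  have := (PolyFun E).prod_mem h
  convert this using 1
  ext x
  simp

theorem PolyFun.det {n : Type*} [Fintype n] [DecidableEq n] {A : E → Matrix n n ℂ}
    (h : ∀ i j, (fun x => A x i j) ∈ PolyFun E) : (fun x => (A x).det) ∈ PolyFun E := by
  simp only [Matrix.det_apply]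
  apply PolyFun.sum
  intro s _
  have : (fun x => ∏ i, A x (s i) i) ∈ PolyFun E := PolyFun.prod _ (fun i _ => h _ _)
  have h2 := PolyFun.smul ((Equiv.Perm.sign s : ℤ) : ℂ) this
  convert h2 using 1
  ext x
  rw [Units.smul_def, zsmul_eq_mul]

/-- Composition of a polynomial function with an affine map. -/
theorem PolyFun.comp_affine {φ : F → ℂ} (h : φ ∈ PolyFun F) (L : E →ₗ[ℂ] F) (c : F) :
    (fun x => φ (c + L x)) ∈ PolyFun E := by
  unfold PolyFun at h
  induction h using Algebra.adjoin_induction with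
  | mem f hf =>
    obtain ⟨l, rfl⟩ := hf
    have : (fun x => l (c + L x)) = fun x => l c + (l ∘ₗ L) x := by
      ext x
      simp
    rw [this]
    exact PolyFun.add (PolyFun.const _) (PolyFun.linear _)
  | algebraMap r => exact PolyFun.const r
  | add f g _ _ hf hg => exact PolyFun.add hf hg
  | mul f g _ _ hf hg => exact PolyFun.mul hf hg

theorem PolyFun.comp_linear {φ : F → ℂ} (h : φ ∈ PolyFun F) (L : E →ₗ[ℂ] F) :
    (fun x => φ (L x)) ∈ PolyFun E := by
  have := PolyFun.comp_affine h L 0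
  simpa using this

/-- A polynomial function on `ℂ` is given by a polynomial. -/
theorem PolyFun.toPoly {φ : ℂ → ℂ} (h : φ ∈ PolyFun ℂ) :
    ∃ p : Polynomial ℂ, ∀ t, φ t = p.eval t := by
  unfold PolyFun at h
  induction h using Algebra.adjoin_induction with
  | mem f hf =>
    obtain ⟨l, rfl⟩ := hf
    refine ⟨Polynomial.C (l 1) * Polynomial.X, fun t => ?_⟩
    have h1 : l t = t * l 1 := by
      conv_lhs => rw [← mul_one t, ← smul_eq_mul, map_smul, smul_eq_mul]
    change l t = _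
    rw [h1, Polynomial.eval_mul, Polynomial.eval_C, Polynomial.eval_X, mul_comm]
  | algebraMap r => exact ⟨Polynomial.C r, fun t => by simp⟩
  | add f g _ _ hf hg =>
    obtain ⟨p, hp⟩ := hf
    obtain ⟨q, hq⟩ := hg
    exact ⟨p + q, fun t => by simp [hp, hq]⟩
  | mul f g _ _ hf hg =>
    obtain ⟨p, hp⟩ := hf
    obtain ⟨q, hq⟩ := hg
    exact ⟨p * q, fun t => by simp [hp, hq]⟩

/-- The polynomial functions form a domain. -/
theorem PolyFun.mul_ne_zero {φ ψ : E → ℂ} (h : φ ∈ PolyFun E) (h' : ψ ∈ PolyFun E)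
    (hφ : φ ≠ 0) (hψ : ψ ≠ 0) : (fun x => φ x * ψ x) ≠ 0 := by
  obtain ⟨x, hx⟩ := Function.ne_iff.1 hφ
  obtain ⟨y, hy⟩ := Function.ne_iff.1 hψ
  simp only [Pi.zero_apply] at hx hy
  let L : ℂ →ₗ[ℂ] E := LinearMap.toSpanSingleton ℂ E (y - x)
  obtain ⟨p, hp⟩ := PolyFun.toPoly (PolyFun.comp_affine h L x)
  obtain ⟨q, hq⟩ := PolyFun.toPoly (PolyFun.comp_affine h' L x)
  have hp0 : p ≠ 0 := by
    rintro rfl
    have := hp 0
    simp [L] at this
    exact hx this
  have hq0 : q ≠ 0 := by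
    rintro rfl
    have := hq 1
    simp [L] at this
    exact hy this
  intro h0
  have : p * q = 0 := by
    apply Polynomial.funext
    intro t
    rw [Polynomial.eval_mul, ← hp, ← hq, Polynomial.eval_zero]
    exact congrFun h0 _
  rcases mul_eq_zero.1 this with h1 | h1
  · exact hp0 h1
  · exact hq0 h1

/-! ### The generic quantifier -/

theorem Gen.mono {Q R : E → Prop} (h : Gen Q) (hQR : ∀ x, Q x → R x) : Gen R := by
  obtain ⟨φ, h1, h2, h3⟩ := h
  exact ⟨φ, h1, h2, fun x hx => hQR x (h3 x hx)⟩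

theorem Gen.of_forall {Q : E → Prop} (h : ∀ x, Q x) : Gen Q :=
  ⟨fun _ => 1, PolyFun.one, fun h0 => one_ne_zero (congrFun h0 0), fun x _ => h x⟩

theorem Gen.and {Q R : E → Prop} (h : Gen Q) (h' : Gen R) : Gen (fun x => Q x ∧ R x) := by
  obtain ⟨φ, h1, h2, h3⟩ := h
  obtain ⟨ψ, h1', h2', h3'⟩ := h'
  refine ⟨fun x => φ x * ψ x, PolyFun.mul h1 h1', PolyFun.mul_ne_zero h1 h1' h2 h2', ?_⟩
  intro x hx
  exact ⟨h3 x (left_ne_zero_of_mul hx), h3' x (right_ne_zero_of_mul hx)⟩

theorem Gen.exists {Q : E → Prop} (h : Gen Q) : ∃ x, Q x := by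
  obtain ⟨φ, _, h2, h3⟩ := h
  obtain ⟨x, hx⟩ := Function.ne_iff.1 h2
  exact ⟨x, h3 x hx⟩

theorem Gen.forall_finset {ι : Type*} (s : Finset ι) {Q : ι → E → Prop}
    (h : ∀ i ∈ s, Gen (Q i)) : Gen (fun x => ∀ i ∈ s, Q i x) := by
  classical
  induction s using Finset.induction_on with
  | empty => exact Gen.of_forall (fun x i hi => absurd hi (Finset.notMem_empty i))
  | insert a s ha ih =>
    have h1 := h a (Finset.mem_insert_self a s)
    have h2 := ih (fun i hi => h i (Finset.mem_insert_of_mem hi))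
    refine (h1.and h2).mono ?_
    rintro x ⟨hx, hx'⟩ i hi
    rcases Finset.mem_insert.1 hi with rfl | hi
    · exact hx
    · exact hx' i hi

theorem Gen.forall_fintype {ι : Type*} [Fintype ι] {Q : ι → E → Prop}
    (h : ∀ i, Gen (Q i)) : Gen (fun x => ∀ i, Q i x) :=
  (Gen.forall_finset Finset.univ (fun i _ => h i)).mono (fun x hx i => hx i (Finset.mem_univ i))

/-- Pulling back along a surjective linear map. -/
theorem Gen.comp {Q : F → Prop} (h : Gen Q) (L : E →ₗ[ℂ] F) (hL : Function.Surjective L) :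
    Gen (fun x => Q (L x)) := by
  obtain ⟨φ, h1, h2, h3⟩ := h
  refine ⟨fun x => φ (L x), PolyFun.comp_linear h1 L, ?_, fun x hx => h3 _ hx⟩
  intro h0
  apply h2
  ext y
  obtain ⟨x, rfl⟩ := hL y
  exact congrFun h0 x

/-- Pulling back along a linear equivalence (iff). -/
theorem Gen.comp_equiv_iff {Q : F → Prop} (L : E ≃ₗ[ℂ] F) :
    Gen (fun x => Q (L x)) ↔ Gen Q := by
  constructor
  · intro h
    have := h.comp L.symm.toLinearMap L.symm.surjective
    refine this.mono ?_
    intro y hy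
    simpa using hy
  · intro h
    exact h.comp L.toLinearMap L.surjective

/-- Fubini for the generic quantifier. -/
theorem Gen.fubini {Q : E × F → Prop} (h : Gen Q) : Gen (fun e => Gen (fun f => Q (e, f))) := by
  obtain ⟨φ, h1, h2, h3⟩ := h
  obtain ⟨⟨e0, f0⟩, h0⟩ := Function.ne_iff.1 h2
  refine ⟨fun e => φ (e, f0), ?_, ?_, ?_⟩
  · have := PolyFun.comp_affine h1 (LinearMap.inl ℂ E F) (0, f0)
    simpa using this
  · intro h'
    exact h0 (congrFun h' e0)
  · intro e he
    refine ⟨fun f => φ (e, f), ?_, ?_, fun f hf => h3 _ hf⟩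
    · have := PolyFun.comp_affine h1 (LinearMap.inr ℂ E F) (e, 0)
      simpa using this
    · intro h'
      exact he (congrFun h' f0)

theorem Gen.and_iff {Q R : E → Prop} : Gen (fun x => Q x ∧ R x) ↔ Gen Q ∧ Gen R :=
  ⟨fun h => ⟨h.mono (fun _ hx => hx.1), h.mono (fun _ hx => hx.2)⟩, fun h => h.1.and h.2⟩

theorem Gen.const_iff {P : Prop} : Gen (fun _ : E => P) ↔ P :=
  ⟨fun h => h.exists.choose_spec, fun h => Gen.of_forall (fun _ => h)⟩

/-- A nonzero scalar is generic in `ℂ`; more generally the complement of a finite set. -/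
theorem Gen.compl_finite (s : Finset ℂ) : Gen (fun t : ℂ => t ∉ s) := by
  refine ⟨fun t => ∏ a ∈ s, (t - a), ?_, ?_, ?_⟩
  · apply PolyFun.prod
    intro a _
    exact PolyFun.sub (PolyFun.linear LinearMap.id) (PolyFun.const a)
  · intro h0
    obtain ⟨t, ht⟩ := Infinite.exists_notMem_finset s
    have := congrFun h0 t
    simp only [Pi.zero_apply] at this
    rw [Finset.prod_eq_zero_iff] at this
    obtain ⟨a, ha, ha'⟩ := this
    rw [sub_eq_zero] at ha'
    exact ht (ha' ▸ ha)
  · intro t ht hts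
    exact ht (Finset.prod_eq_zero hts (sub_self t))

/-! ### Polynomial maps -/

theorem PolyMap.const (t : T) : PolyMap (fun _ : E => t) :=
  ⟨1, fun _ _ => 1, fun _ => t, fun _ => PolyFun.one, fun x => by simp⟩

theorem PolyMap.of_fintype {ι : Type*} [Fintype ι] {φ : ι → E → ℂ} {t : ι → T}
    (hφ : ∀ i, φ i ∈ PolyFun E) {G : E → T} (hG : ∀ x, G x = ∑ i, φ i x • t i) : PolyMap G := by
  let e := Fintype.equivFin ι
  refine ⟨Fintype.card ι, fun i => φ (e.symm i), fun i => t (e.symm i),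
    fun i => hφ _, fun x => ?_⟩
  rw [hG]
  exact (Equiv.sum_comp e.symm (fun i => φ i x • t i)).symm

theorem PolyMap.add {G H : E → T} (hG : PolyMap G) (hH : PolyMap H) :
    PolyMap (fun x => G x + H x) := by
  obtain ⟨k, φ, t, h1, h2⟩ := hG
  obtain ⟨k', φ', t', h1', h2'⟩ := hH
  refine PolyMap.of_fintype (ι := Fin k ⊕ Fin k') (φ := Sum.elim φ φ') (t := Sum.elim t t') ?_ ?_
  · rintro (i | i)
    · exact h1 i
    · exact h1' i
  · intro x
    simp [h2, h2', Fintype.sum_sum_type]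

theorem PolyMap.sum {ι : Type*} (s : Finset ι) {G : ι → E → T} (h : ∀ i ∈ s, PolyMap (G i)) :
    PolyMap (fun x => ∑ i ∈ s, G i x) := by
  classical
  induction s using Finset.induction_on with
  | empty => simpa using PolyMap.const (E := E) (0 : T)
  | insert a s ha ih =>
    have h1 := h a (Finset.mem_insert_self a s)
    have h2 := ih (fun i hi => h i (Finset.mem_insert_of_mem hi))
    have := h1.add h2
    simpa [Finset.sum_insert ha] using this

theorem PolyMap.smul {φ : E → ℂ} (hφ : φ ∈ PolyFun E) {G : E → T} (hG : PolyMap G) :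
    PolyMap (fun x => φ x • G x) := by
  obtain ⟨k, ψ, t, h1, h2⟩ := hG
  refine ⟨k, fun i x => φ x * ψ i x, t, fun i => PolyFun.mul hφ (h1 i), fun x => ?_⟩
  simp only []
  rw [h2, Finset.smul_sum]
  refine Finset.sum_congr rfl (fun i _ => ?_)
  rw [smul_smul]

/-- Postcomposition with a linear map. -/
theorem PolyMap.map {G : E → T} (hG : PolyMap G) {T' : Type*} [AddCommGroup T'] [Module ℂ T']
    (L : T →ₗ[ℂ] T') : PolyMap (fun x => L (G x)) := by
  obtain ⟨k, φ, t, h1, h2⟩ := hG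
  refine ⟨k, φ, fun i => L (t i), h1, fun x => ?_⟩
  simp only []
  rw [h2, map_sum]
  simp

/-- Precomposition with a linear map. -/
theorem PolyMap.comp {G : F → T} (hG : PolyMap G) (L : E →ₗ[ℂ] F) :
    PolyMap (fun x => G (L x)) := by
  obtain ⟨k, φ, t, h1, h2⟩ := hG
  exact ⟨k, fun i x => φ i (L x), t, fun i => PolyFun.comp_linear (h1 i) L, fun x => h2 _⟩

theorem PolyMap.mul {A : Type*} [Ring A] [Algebra ℂ A] {G H : E → A} (hG : PolyMap G)
    (hH : PolyMap H) : PolyMap (fun x => G x * H x) := by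
  obtain ⟨k, φ, t, h1, h2⟩ := hG
  obtain ⟨k', φ', t', h1', h2'⟩ := hH
  refine PolyMap.of_fintype (ι := Fin k × Fin k') (φ := fun p x => φ p.1 x * φ' p.2 x)
    (t := fun p => t p.1 * t' p.2) (fun p => PolyFun.mul (h1 _) (h1' _)) ?_
  intro x
  rw [h2 x, h2' x, Finset.sum_mul_sum, Fintype.sum_prod_type]
  refine Finset.sum_congr rfl (fun i _ => Finset.sum_congr rfl (fun j _ => ?_))
  simp only [Algebra.smul_mul_assoc, Algebra.mul_smul_comm, smul_smul]
  rw [mul_comm]

theorem PolyMap.pow {A : Type*} [Ring A] [Algebra ℂ A] {G : E → A} (hG : PolyMap G) (n : ℕ) :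
    PolyMap (fun x => G x ^ n) := by
  induction n with
  | zero => simpa using PolyMap.const (E := E) (1 : A)
  | succ n ih =>
    have := ih.mul hG
    simpa [pow_succ] using this

/-- A linear functional applied to a polynomial map is a polynomial function. -/
theorem PolyMap.functional {G : E → T} (hG : PolyMap G) (l : T →ₗ[ℂ] ℂ) :
    (fun x => l (G x)) ∈ PolyFun E := by
  obtain ⟨k, φ, t, h1, h2⟩ := hG
  have : (fun x => l (G x)) = fun x => ∑ i, l (t i) * φ i x := by
    ext x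
    rw [h2, map_sum]
    refine Finset.sum_congr rfl (fun i _ => ?_)
    rw [map_smul, smul_eq_mul, mul_comm]
  rw [this]
  exact PolyFun.sum _ (fun i _ => PolyFun.smul _ (h1 i))

/-- Closure principle: a polynomial map which generically lands in a submodule
always lands in it. -/
theorem PolyMap.mem_of_gen {G : E → T} (hG : PolyMap G) (Z : Submodule ℂ T)
    (h : Gen (fun x => G x ∈ Z)) (x : E) : G x ∈ Z := by
  by_contra hx
  obtain ⟨l, hl, hl'⟩ := Submodule.exists_le_ker_of_notMem hx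
  have hp := hG.functional l
  have hg : Gen (fun y => l (G y) ≠ 0) := by
    refine ⟨fun y => l (G y), hp, ?_, fun y hy => hy⟩
    intro h0
    exact hl (congrFun h0 x)
  obtain ⟨y, hy1, hy2⟩ := (h.and hg).exists
  exact hy2 (hl' hy1)

/-- A linear map out of a finite-dimensional space (with a finite spanning presentation)
is a polynomial map; here for function spaces. -/
theorem PolyMap.pi_linear {ι : Type*} [Fintype ι] (G : (ι → ℂ) →ₗ[ℂ] T) :
    PolyMap (fun x => G x) := by
  classical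
  refine PolyMap.of_fintype (ι := ι) (φ := fun i x => x i) (t := fun i => G (Pi.single i 1)) ?_ ?_
  · intro i
    exact PolyFun.linear (LinearMap.proj (R := ℂ) (φ := fun _ : ι => ℂ) i)
  · intro x
    conv_lhs => rw [← Finset.univ_sum_single x, map_sum]
    refine Finset.sum_congr rfl (fun i _ => ?_)
    rw [← map_smul]
    congr 1
    ext j
    by_cases h : j = i
    · subst h; simp
    · simp [h]

end Pool.Agent.Helper93.TP
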