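import Mathlib
import Pool.Agent.Helper93.TP.Gen

/-!
Families of linear maps `μ a : M → T` depending polynomially on `a : V`: generic ranks of
sums of ranges over finitely many generic points.
-/

namespace Pool.Agent.Helper93.TP

open Module

section Lin

variable {M T : Type*} [AddCommGroup M] [Module ℂ M] [AddCommGroup T] [Module ℂ T]

/-- Rank-nullity for adding the range of a linear map to a submodule. -/
theorem finrank_sup_range [FiniteDimensional ℂ M] (S : Submodule ℂ T) [FiniteDimensional ℂ S]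
    (f : M →ₗ[ℂ] T) :
    finrank ℂ (S ⊔ LinearMap.range f : Submodule ℂ T) + finrank ℂ (S.comap f) =
      finrank ℂ S + finrank ℂ M := by
  have h1 := Submodule.finrank_sup_add_finrank_inf_eq S (LinearMap.range f)
  have h2 := LinearMap.finrank_range_add_finrank_ker f
  have h3 : finrank ℂ (S.comap f) = finrank ℂ (S ⊓ LinearMap.range f : Submodule ℂ T)
      + finrank ℂ (LinearMap.ker f) := by
    let g : (S.comap f) →ₗ[ℂ] T := f.domRestrict (S.comap f)
    have hg := LinearMap.finrank_range_add_finrank_ker g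
    have e1 : LinearMap.range g = S ⊓ LinearMap.range f := by
      ext y
      constructor
      · rintro ⟨⟨x, hx⟩, rfl⟩
        exact ⟨hx, ⟨x, rfl⟩⟩
      · rintro ⟨hy, ⟨x, rfl⟩⟩
        exact ⟨⟨x, hy⟩, rfl⟩
    have e2 : finrank ℂ (LinearMap.ker g) = finrank ℂ (LinearMap.ker f) := by
      have hle : LinearMap.ker f ≤ S.comap f := by
        intro x hx
        rw [LinearMap.mem_ker] at hx
        rw [Submodule.mem_comap, hx]
        exact S.zero_mem
      have : LinearMap.ker g = (LinearMap.ker f).comap (S.comap f).subtype := by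
        ext ⟨x, hx⟩
        simp [g]
      rw [this]
      exact (Submodule.comapSubtypeEquivOfLe hle).finrank_eq
    rw [e1, e2] at hg
    omega
  omega

end Lin

section GenRank

variable {E T : Type*} [AddCommGroup E] [Module ℂ E] [AddCommGroup T] [Module ℂ T]

/-- Linear independence is an open condition. -/
theorem gen_linearIndependent {J : Type*} [Fintype J] {u : J → E → T}
    (hu : ∀ j, PolyMap (u j)) {x0 : E} (h0 : LinearIndependent ℂ (fun j => u j x0)) :
    Gen (fun x => LinearIndependent ℂ (fun j => u j x)) := by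
  classical
  obtain ⟨l, hl⟩ : ∃ l : T →ₗ[ℂ] (J → ℂ), ∀ j, l (u j x0) = Pi.single j 1 := by
    let b := Module.Basis.extend h0.linearIndepOn_id
    have hinj : Function.Injective (fun j => u j x0) := h0.injective
    have hsub : ∀ j, u j x0 ∈ h0.linearIndepOn_id.extend (Set.subset_univ _) := fun j =>
      h0.linearIndepOn_id.subset_extend (Set.subset_univ _) ⟨j, rfl⟩
    let g : h0.linearIndepOn_id.extend (Set.subset_univ _) → (J → ℂ) := fun v =>
      if h : ∃ j, u j x0 = v then Pi.single h.choose 1 else 0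
    refine ⟨b.constr ℂ g, fun j => ?_⟩
    have e : u j x0 = b ⟨u j x0, hsub j⟩ := by
      rw [Module.Basis.extend_apply_self]
    conv_lhs => rw [e, Module.Basis.constr_basis]
    have hex : ∃ j', u j' x0 = ((⟨u j x0, hsub j⟩ : h0.linearIndepOn_id.extend
      (Set.subset_univ _)) : T) := ⟨j, rfl⟩
    simp only [g]
    rw [dif_pos hex]
    congr 1
    exact hinj hex.choose_spec
  let A : E → Matrix J J ℂ := fun x => Matrix.of (fun i j => l (u j x) i)
  have hA : (fun x => (A x).det) ∈ PolyFun E := by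
    apply PolyFun.det
    intro i j
    exact (hu j).functional ((LinearMap.proj (R := ℂ) (φ := fun _ : J => ℂ) i) ∘ₗ l)
  refine ⟨_, hA, ?_, ?_⟩
  · intro h
    have : (A x0).det = 0 := congrFun h x0
    have h1 : A x0 = 1 := by
      ext i j
      simp only [A, Matrix.of_apply, hl]
      rw [Matrix.one_apply, Pi.single_apply]
    rw [h1, Matrix.det_one] at this
    exact one_ne_zero this
  · intro x hx
    rw [Fintype.linearIndependent_iff]
    intro c hc
    have hmul : (A x).mulVec c = 0 := by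
      ext i
      have := congrArg l hc
      rw [map_sum, map_zero] at this
      have := congrFun this i
      simp only [map_smul, Finset.sum_apply, Pi.smul_apply, smul_eq_mul, Pi.zero_apply] at this
      simp only [Matrix.mulVec, dotProduct, A, Matrix.of_apply, Pi.zero_apply]
      rw [← this]
      refine Finset.sum_congr rfl (fun j _ => mul_comm _ _)
    have := Matrix.eq_zero_of_mulVec_eq_zero hx hmul
    intro i
    exact congrFun this i

/-- The rank of a family of polynomial maps is lower semicontinuous. -/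
theorem gen_finrank_span {J : Type*} [Finite J] {u : J → E → T}
    (hu : ∀ j, PolyMap (u j)) (x0 : E) :
    Gen (fun x => finrank ℂ (Submodule.span ℂ (Set.range fun j => u j x0)) ≤
      finrank ℂ (Submodule.span ℂ (Set.range fun j => u j x))) := by
  classical
  have : Fintype J := Fintype.ofFinite J
  have hfin : ∀ x, FiniteDimensional ℂ (Submodule.span ℂ (Set.range fun j => u j x)) :=
    fun x => FiniteDimensional.span_of_finite ℂ (Set.finite_range _)
  have := hfin x0
  obtain ⟨f, hf1, hf2, hf3⟩ := Submodule.exists_fun_fin_finrank_span_eq ℂ (Set.range fun j => u j x0)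
  choose g hg using hf1
  have hli : LinearIndependent ℂ (fun i => u (g i) x0) := by
    have hfg : (fun i => u (g i) x0) = f := funext hg
    rw [hfg]
    exact hf3
  refine (gen_linearIndependent (u := fun i => u (g i)) (fun i => hu _) hli).mono ?_
  intro x hx
  have h1 := finrank_span_eq_card hx
  rw [Fintype.card_fin] at h1
  conv_lhs => rw [← h1]
  have := hfin x
  apply Submodule.finrank_mono
  apply Submodule.span_mono
  rintro _ ⟨i, rfl⟩
  exact ⟨g i, rfl⟩

end GenRank

section Family

set_option linter.unusedSectionVars false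

variable {V M T : Type*} [AddCommGroup V] [Module ℂ V] [AddCommGroup M] [Module ℂ M]
  [AddCommGroup T] [Module ℂ T]

/-- The sum of `S0` and of the ranges of `μ (ω i)`, `i ∈ A`. -/
def Sig (μ : V → M →ₗ[ℂ] T) (S0 : Submodule ℂ T) (A : Finset ℕ) (ω : ℕ → V) :
    Submodule ℂ T :=
  S0 ⊔ ⨆ i ∈ A, LinearMap.range (μ (ω i))

variable (μ : V → M →ₗ[ℂ] T) (S0 : Submodule ℂ T)

theorem Sig_mono {A A' : Finset ℕ} (h : A ⊆ A') (ω : ℕ → V) :
    Sig μ S0 A ω ≤ Sig μ S0 A' ω := by
  unfold Sig
  apply sup_le_sup_left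
  exact biSup_mono (fun i hi => h hi)

theorem Sig_insert (A : Finset ℕ) (j : ℕ) (ω : ℕ → V) :
    Sig μ S0 (insert j A) ω = Sig μ S0 A ω ⊔ LinearMap.range (μ (ω j)) := by
  classical
  unfold Sig
  rw [Finset.iSup_insert, sup_comm (LinearMap.range _), ← sup_assoc]

theorem Sig_empty (ω : ℕ → V) : Sig μ S0 ∅ ω = S0 := by
  unfold Sig
  simp

theorem range_le_Sig {A : Finset ℕ} {j : ℕ} (hj : j ∈ A) (ω : ℕ → V) :
    LinearMap.range (μ (ω j)) ≤ Sig μ S0 A ω := by
  unfold Sig
  refine le_sup_of_le_right ?_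
  exact le_iSup₂_of_le j hj le_rfl

theorem S0_le_Sig (A : Finset ℕ) (ω : ℕ → V) : S0 ≤ Sig μ S0 A ω := le_sup_left

theorem Sig_image (A : Finset ℕ) (g : ℕ → ℕ) (ω : ℕ → V) :
    Sig μ S0 (A.image g) ω = Sig μ S0 A (ω ∘ g) := by
  classical
  unfold Sig
  congr 1
  rw [Finset.iSup_finset_image]
  rfl

instance Sig_finiteDimensional [FiniteDimensional ℂ M] [FiniteDimensional ℂ S0]
    (A : Finset ℕ) (ω : ℕ → V) : FiniteDimensional ℂ (Sig μ S0 A ω) := by
  classical
  induction A using Finset.induction_on with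
  | empty => rw [Sig_empty]; infer_instance
  | insert a s ha ih =>
    rw [Sig_insert]
    have := ih
    infer_instance

/-- The generic rank for `t` points. -/
noncomputable def Dm (t : ℕ) : ℕ :=
  sSup (Set.range fun ω : ℕ → V => finrank ℂ (Sig μ S0 (Finset.range t) ω))

variable [FiniteDimensional ℂ M] [FiniteDimensional ℂ S0]

theorem finrank_Sig_le (A : Finset ℕ) (ω : ℕ → V) :
    finrank ℂ (Sig μ S0 A ω) ≤ finrank ℂ S0 + A.card * finrank ℂ M := by
  classical
  induction A using Finset.induction_on with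
  | empty => rw [Sig_empty]; simp
  | insert a s ha ih =>
    rw [Sig_insert, Finset.card_insert_of_notMem ha]
    have := finrank_sup_range (Sig μ S0 s ω) (μ (ω a))
    have h2 : finrank ℂ (Sig μ S0 s ω ⊔ LinearMap.range (μ (ω a)) : Submodule ℂ T) ≤
        finrank ℂ (Sig μ S0 s ω) + finrank ℂ M := by omega
    calc _ ≤ finrank ℂ (Sig μ S0 s ω) + finrank ℂ M := h2
      _ ≤ finrank ℂ S0 + s.card * finrank ℂ M + finrank ℂ M := by omega
      _ = _ := by ring

theorem exists_inj_image (A : Finset ℕ) :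
    ∃ g : ℕ → ℕ, Function.Injective g ∧ (Finset.range A.card).image g = A := by
  classical
  let e := A.orderEmbOfFin rfl
  let N := A.sup id
  refine ⟨fun i => if h : i < A.card then e ⟨i, h⟩ else N + 1 + i, ?_, ?_⟩
  · intro i j hij
    simp only at hij
    have hle : ∀ k : Fin A.card, e k ≤ N := fun k =>
      Finset.le_sup (f := id) (Finset.orderEmbOfFin_mem A rfl k)
    by_cases hi : i < A.card <;> by_cases hj : j < A.card
    · rw [dif_pos hi, dif_pos hj] at hij
      have := e.injective hij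
      simpa using this
    · rw [dif_pos hi, dif_neg hj] at hij
      have := hle ⟨i, hi⟩
      omega
    · rw [dif_neg hi, dif_pos hj] at hij
      have := hle ⟨j, hj⟩
      omega
    · rw [dif_neg hi, dif_neg hj] at hij
      omega
  · ext a
    rw [Finset.mem_image]
    constructor
    · rintro ⟨i, hi, rfl⟩
      rw [Finset.mem_range] at hi
      rw [dif_pos hi]
      exact Finset.orderEmbOfFin_mem A rfl _
    · intro ha
      have : a ∈ Set.range e := by
        rw [Finset.range_orderEmbOfFin]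
        exact ha
      obtain ⟨k, hk⟩ := this
      refine ⟨k, Finset.mem_range.2 k.2, ?_⟩
      rw [dif_pos k.2]
      exact hk

theorem finrank_Sig_le_Dm (A : Finset ℕ) (ω : ℕ → V) :
    finrank ℂ (Sig μ S0 A ω) ≤ Dm μ S0 A.card := by
  obtain ⟨g, _, hg2⟩ := exists_inj_image A
  have : Sig μ S0 A ω = Sig μ S0 (Finset.range A.card) (ω ∘ g) := by
    rw [← Sig_image, hg2]
  rw [this]
  apply le_csSup
  · refine ⟨finrank ℂ S0 + A.card * finrank ℂ M, ?_⟩
    rintro _ ⟨ω', rfl⟩
    have := finrank_Sig_le μ S0 (Finset.range A.card) ω'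
    simpa using this
  · exact ⟨_, rfl⟩

theorem exists_finrank_Sig (t : ℕ) :
    ∃ ω : ℕ → V, finrank ℂ (Sig μ S0 (Finset.range t) ω) = Dm μ S0 t := by
  have hne : (Set.range fun ω : ℕ → V => finrank ℂ (Sig μ S0 (Finset.range t) ω)).Nonempty :=
    Set.range_nonempty _
  have hbdd : BddAbove (Set.range fun ω : ℕ → V =>
      finrank ℂ (Sig μ S0 (Finset.range t) ω)) := by
    refine ⟨finrank ℂ S0 + t * finrank ℂ M, ?_⟩
    rintro _ ⟨ω', rfl⟩
    have := finrank_Sig_le μ S0 (Finset.range t) ω'
    simpa using this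
  obtain ⟨ω, hω⟩ := Nat.sSup_mem hne hbdd
  exact ⟨ω, hω⟩

theorem Dm_le_of_forall {t B : ℕ} (h : ∀ ω : ℕ → V, finrank ℂ (Sig μ S0 (Finset.range t) ω) ≤ B) :
    Dm μ S0 t ≤ B := by
  obtain ⟨ω, hω⟩ := exists_finrank_Sig μ S0 t
  rw [← hω]
  exact h ω

variable {μ S0}

/-- `Sig` as a span of polynomial maps. -/
theorem Sig_eq_span (A : Finset ℕ) (ω : ℕ → V) :
    Sig μ S0 A ω = Submodule.span ℂ (Set.range (fun j : (Fin (finrank ℂ S0) ⊕
      (A × Fin (finrank ℂ M))) => Sum.elim (fun i => ((finBasis ℂ S0 i : S0) : T))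
        (fun p => μ (ω p.1) (finBasis ℂ M p.2)) j)) := by
  classical
  apply le_antisymm
  · unfold Sig
    apply sup_le
    · have h1 : Submodule.span ℂ (Set.range fun i => ((finBasis ℂ S0 i : S0) : T)) = S0 := by
        have := (finBasis ℂ S0).span_eq
        have h2 := congrArg (Submodule.map S0.subtype) this
        rw [Submodule.map_span, Submodule.map_top, Submodule.range_subtype] at h2
        refine Eq.trans ?_ h2
        congr 1
        rw [← Set.range_comp]
        rfl
      calc S0 = Submodule.span ℂ (Set.range fun i => ((finBasis ℂ S0 i : S0) : T)) := h1.symm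
        _ ≤ _ := by
          apply Submodule.span_mono
          rintro _ ⟨i, rfl⟩
          exact ⟨Sum.inl i, rfl⟩
    · refine iSup₂_le (fun i hi => ?_)
      rintro _ ⟨m, rfl⟩
      have : m ∈ Submodule.span ℂ (Set.range (finBasis ℂ M)) := by
        rw [(finBasis ℂ M).span_eq]; trivial
      have h2 := Submodule.apply_mem_span_image_of_mem_span (μ (ω i)) this
      refine Submodule.span_mono ?_ h2
      rintro _ ⟨_, ⟨j, rfl⟩, rfl⟩
      exact ⟨Sum.inr (⟨i, hi⟩, j), rfl⟩
  · rw [Submodule.span_le]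
    rintro _ ⟨(i | ⟨⟨i, hi⟩, j⟩), rfl⟩
    · exact S0_le_Sig μ S0 A ω (Submodule.coe_mem _)
    · exact range_le_Sig μ S0 hi ω ⟨_, rfl⟩

variable (hμ : ∀ m, PolyMap (fun a => μ a m))
include hμ

theorem polyMap_proj (i : ℕ) (m : M) : PolyMap (fun ω : ℕ → V => μ (ω i) m) :=
  PolyMap.comp (hμ m) (LinearMap.proj (R := ℂ) (φ := fun _ : ℕ => V) i)

/-- The rank for `A` at generic `ω` is at least the rank at any given `ω0`. -/
theorem gen_finrank_Sig_ge (A : Finset ℕ) (ω0 : ℕ → V) :
    Gen (fun ω : ℕ → V => finrank ℂ (Sig μ S0 A ω0) ≤ finrank ℂ (Sig μ S0 A ω)) := by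
  classical
  have h := gen_finrank_span (E := ℕ → V) (T := T)
    (J := (Fin (finrank ℂ S0) ⊕ (A × Fin (finrank ℂ M))))
    (u := fun j ω => Sum.elim (fun i => ((finBasis ℂ S0 i : S0) : T))
        (fun p => μ (ω p.1) (finBasis ℂ M p.2)) j) ?_ ω0
  · refine h.mono ?_
    intro ω hω
    rw [Sig_eq_span A ω0, Sig_eq_span A ω]
    exact hω
  · rintro (i | ⟨⟨i, hi⟩, j⟩)
    · exact PolyMap.const _
    · exact polyMap_proj hμ i _

/-- Generically the rank for a finite set of indices is `Dm`. -/
theorem gen_finrank_Sig (A : Finset ℕ) :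
    Gen (fun ω : ℕ → V => finrank ℂ (Sig μ S0 A ω) = Dm μ S0 A.card) := by
  classical
  obtain ⟨ω', hω'⟩ := exists_finrank_Sig μ S0 A.card
  obtain ⟨g, hg1, hg2⟩ := exists_inj_image A
  obtain ⟨ω0, hω0⟩ := hg1.surjective_comp_right ω'
  have e : finrank ℂ (Sig μ S0 A ω0) = Dm μ S0 A.card := by
    have e1 : Sig μ S0 A ω0 = Sig μ S0 (Finset.range A.card) (ω0 ∘ g) := by
      rw [← Sig_image, hg2]
    have e2 : ω0 ∘ g = ω' := hω0
    rw [← hω', e1, e2]
  refine (gen_finrank_Sig_ge (S0 := S0) hμ A ω0).mono ?_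
  intro ω hω
  rw [e] at hω
  exact le_antisymm (finrank_Sig_le_Dm μ S0 A ω) hω

/-- Generic dimension of the kernel `K`. -/
theorem gen_finrank_K (A : Finset ℕ) {j : ℕ} (hj : j ∉ A) :
    Gen (fun ω : ℕ → V => finrank ℂ ((Sig μ S0 A ω).comap (μ (ω j))) + Dm μ S0 (A.card + 1) =
      Dm μ S0 A.card + finrank ℂ M) := by
  classical
  have h1 := gen_finrank_Sig (S0 := S0) hμ A
  have h2 := gen_finrank_Sig (S0 := S0) hμ (insert j A)
  rw [Finset.card_insert_of_notMem hj] at h2
  refine (h1.and h2).mono ?_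
  rintro ω ⟨e1, e2⟩
  have := finrank_sup_range (Sig μ S0 A ω) (μ (ω j))
  rw [Sig_insert] at e2
  omega

end Family

end Pool.Agent.Helper93.TP
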