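import Mathlib
import Pool.Agent.Helper93.TP.Fam

/-!
Further definitions for the triple point project: the family of the squares of linear forms,
fullness, and the vector valued cubic forms used in the degeneration step.
-/

namespace Pool.Agent.Helper93.TP

open MvPolynomial

section

variable {σ : Type*} [Fintype σ]

/-- Multiplication of quadratic forms by `(lf b)^(d-2)`. -/
noncomputable def mu (σ : Type*) [Fintype σ] (d : ℕ) (b : σ → ℂ) :
    (homogeneousSubmodule σ ℂ 2) →ₗ[ℂ] MvPolynomial σ ℂ :=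
  (LinearMap.mulLeft ℂ (lf b ^ (d - 2))) ∘ₗ (homogeneousSubmodule σ ℂ 2).subtype

/-- `r` suitable triple points impose all conditions in degree `4`. -/
def Full (σ : Type*) [Fintype σ] (r : ℕ) : Prop :=
  ∃ B : Fin r → σ → ℂ, homogeneousSubmodule σ ℂ 4 ≤ W 4 B

/-- The vector valued linear form with coefficients `ξ`. -/
noncomputable def vec (ξ : σ → Fin 3 → ℂ) : Fin 3 → MvPolynomial σ ℂ :=
  fun y => lf (fun i => ξ i y)

/-- Multiplication of vector valued linear forms by `(lf b)^2`. -/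
noncomputable def nu (b : σ → ℂ) : (σ → Fin 3 → ℂ) →ₗ[ℂ] (Fin 3 → MvPolynomial σ ℂ) where
  toFun ξ := fun y => lf b ^ 2 * vec ξ y
  map_add' := by
    intro ξ η
    funext y
    simp only [vec, lf, Pi.add_apply, add_smul, Finset.sum_add_distrib, mul_add]
  map_smul' := by
    intro c ξ
    funext y
    simp only [vec, lf, Pi.smul_apply, smul_eq_mul, RingHom.id_apply, Finset.smul_sum,
      Finset.mul_sum, mul_smul, Algebra.mul_smul_comm]

/-- The vector valued cubic forms. -/
noncomputable def T3 (σ : Type*) [Fintype σ] : Submodule ℂ (Fin 3 → MvPolynomial σ ℂ) :=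
  Submodule.pi Set.univ (fun _ => homogeneousSubmodule σ ℂ 3)

/-- The span of all `X i * q ⊗ nn (cl i)`, `q` a quadratic form. -/
noncomputable def P0 {K : ℕ} (cl : σ → Fin (K + 1)) (nn : Fin (K + 1) → Fin 3 → ℂ) :
    Submodule ℂ (Fin 3 → MvPolynomial σ ℂ) :=
  Submodule.span ℂ {f | ∃ (i : σ) (q : MvPolynomial σ ℂ), q ∈ homogeneousSubmodule σ ℂ 2 ∧
    f = fun y => nn (cl i) y • (X i * q)}

/-- Admissible directions: `nn 0 = 0` and any three others are linearly independent. -/
def GoodDir {K : ℕ} (nn : Fin (K + 1) → Fin 3 → ℂ) : Prop :=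
  nn 0 = 0 ∧ ∀ a b c : Fin (K + 1), a ≠ 0 → b ≠ 0 → c ≠ 0 → a ≠ b → a ≠ c → b ≠ c →
    LinearIndependent ℂ ![nn a, nn b, nn c]

/-- The span of all `η ⊗ (X i * q)`, `η ∈ Θ (cl i)`, `q` a quadratic form. -/
noncomputable def ZT {K : ℕ} (cl : σ → Fin (K + 1))
    (Θ : Fin (K + 1) → Submodule ℂ (Fin 3 → ℂ)) : Submodule ℂ (Fin 3 → MvPolynomial σ ℂ) :=
  Submodule.span ℂ {f | ∃ (i : σ) (q : MvPolynomial σ ℂ) (η : Fin 3 → ℂ),
    q ∈ homogeneousSubmodule σ ℂ 2 ∧ η ∈ Θ (cl i) ∧ f = fun y => η y • (X i * q)}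

end

section

variable {V M T : Type*} [AddCommGroup V] [Module ℂ V] [AddCommGroup M] [Module ℂ M]
  [AddCommGroup T] [Module ℂ T]

/-- The canonical subspace: all `ξ` with `μ b ξ ∈ Sig ω` for generic `ω` (with `t` points). -/
def Can (μ : V → M →ₗ[ℂ] T) (S0 : Submodule ℂ T) (t : ℕ) (b : V) : Submodule ℂ M where
  carrier := {ξ | Gen (fun ω : ℕ → V => μ b ξ ∈ Sig μ S0 (Finset.range t) ω)}
  add_mem' := by
    intro x y hx hy
    refine (Gen.and hx hy).mono ?_
    rintro ω ⟨h1, h2⟩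
    rw [map_add]
    exact Submodule.add_mem _ h1 h2
  zero_mem' := Gen.of_forall (fun ω => by rw [map_zero]; exact Submodule.zero_mem _)
  smul_mem' := by
    intro c x hx
    refine Gen.mono hx ?_
    intro ω h
    rw [map_smul]
    exact Submodule.smul_mem _ _ h

end

end Pool.Agent.Helper93.TP
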