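import Mathlib
import Pool.Agent.Helper93.TP.Defs2

/-!
Generic ranks II: concavity, the exchange (chain) principle, canonical subspaces at a step with
equal consecutive gains, and the lower bound coming from a generically contained subspace.
-/

namespace Pool.Agent.Helper93.TP

open Module

/-- Exchange principle for finite sets of the same cardinality. -/
theorem finset_chain {S : Set ℕ} {P : Finset ℕ → Finset ℕ → Prop}
    (hrefl : ∀ A : Finset ℕ, P A A)
    (htrans : ∀ A B C : Finset ℕ, P A B → P B C → P A C)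
    (hstep : ∀ (A : Finset ℕ) (a b : ℕ), (∀ i ∈ A, i ∈ S) → a ∈ A → b ∈ S → b ∉ A →
      P A (insert b (A.erase a))) :
    ∀ A A' : Finset ℕ, (∀ i ∈ A, i ∈ S) → (∀ i ∈ A', i ∈ S) → A.card = A'.card → P A A' := by
  classical
  have key : ∀ (m : ℕ) (A A' : Finset ℕ), (A \ A').card = m → (∀ i ∈ A, i ∈ S) →
      (∀ i ∈ A', i ∈ S) → A.card = A'.card → P A A' := by
    intro m
    induction m with
    | zero =>
      intro A A' h0 _ _ hc
      have hsub : A ⊆ A' := by
        rw [Finset.card_eq_zero, Finset.sdiff_eq_empty_iff_subset] at h0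
        exact h0
      have := Finset.eq_of_subset_of_card_le hsub (le_of_eq hc.symm)
      rw [this]
      exact hrefl A'
    | succ m ih =>
      intro A A' hm hA hA' hc
      have hne : (A \ A').Nonempty := by
        rw [← Finset.card_pos]
        omega
      obtain ⟨a, ha⟩ := hne
      have hcard : (A' \ A).card = m + 1 := by
        have h1 := Finset.card_sdiff_add_card_inter A A'
        have h2 := Finset.card_sdiff_add_card_inter A' A
        rw [Finset.inter_comm] at h2
        omega
      have hne' : (A' \ A).Nonempty := by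
        rw [← Finset.card_pos]
        omega
      obtain ⟨b, hb⟩ := hne'
      rw [Finset.mem_sdiff] at ha hb
      have hab : a ≠ b := by
        rintro rfl
        exact hb.2 ha.1
      have h1 : P A (insert b (A.erase a)) := hstep A a b hA ha.1 (hA' b hb.1) hb.2
      refine htrans _ _ _ h1 (ih _ _ ?_ ?_ hA' ?_)
      · have e : insert b (A.erase a) \ A' = (A \ A').erase a := by
          ext i
          simp only [Finset.mem_sdiff, Finset.mem_insert, Finset.mem_erase]
          constructor
          · rintro ⟨(rfl | ⟨h3, h4⟩), h5⟩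
            · exact absurd hb.1 h5
            · exact ⟨h3, h4, h5⟩
          · rintro ⟨h3, h4, h5⟩
            exact ⟨Or.inr ⟨h3, h4⟩, h5⟩
        rw [e, Finset.card_erase_of_mem (Finset.mem_sdiff.2 ha), hm]
        rfl
      · intro i hi
        rcases Finset.mem_insert.1 hi with rfl | hi
        · exact hA' _ hb.1
        · exact hA i (Finset.mem_of_mem_erase hi)
      · rw [Finset.card_insert_of_notMem (fun h => hb.2 (Finset.mem_of_mem_erase h)),
          Finset.card_erase_of_mem ha.1, ← hc]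
        have : 0 < A.card := Finset.card_pos.2 ⟨a, ha.1⟩
        omega
  intro A A' hA hA' hc
  exact key _ A A' rfl hA hA' hc

section Mix

variable {V : Type*} [AddCommGroup V] [Module ℂ V]

/-- Take the first `k` entries from the first sequence, then continue with the second. -/
def mix (k : ℕ) (ω' ω'' : ℕ → V) : ℕ → V := fun i => if i < k then ω' i else ω'' (i - k)

/-- `mix` as a linear map. -/
def mixL (V : Type*) [AddCommGroup V] [Module ℂ V] (k : ℕ) :
    ((ℕ → V) × (ℕ → V)) →ₗ[ℂ] (ℕ → V) where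
  toFun p := mix k p.1 p.2
  map_add' := by
    intro p q
    funext i
    simp only [mix, Prod.fst_add, Prod.snd_add, Pi.add_apply]
    split_ifs <;> rfl
  map_smul' := by
    intro c p
    funext i
    simp only [mix, Prod.smul_fst, Prod.smul_snd, Pi.smul_apply, RingHom.id_apply]
    split_ifs <;> rfl

theorem mixL_surjective (k : ℕ) : Function.Surjective (mixL V k) := by
  intro ω
  refine ⟨(ω, fun i => ω (i + k)), ?_⟩
  funext i
  change mix k ω (fun i => ω (i + k)) i = ω i
  unfold mix
  split_ifs with h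
  · rfl
  · change ω (i - k + k) = ω i
    rw [Nat.sub_add_cancel (not_lt.1 h)]

theorem Gen.mix {Q : (ℕ → V) → Prop} (h : Gen Q) (k : ℕ) :
    Gen (fun ω' : ℕ → V => Gen (fun ω'' : ℕ → V => Q (TP.mix k ω' ω''))) :=
  (h.comp (mixL V k) (mixL_surjective k)).fubini

/-- Reindexing along an injection. -/
theorem Gen.reindex {Q : (ℕ → V) → Prop} (h : Gen Q) {g : ℕ → ℕ} (hg : Function.Injective g) :
    Gen (fun ω : ℕ → V => Q (ω ∘ g)) :=
  h.comp (LinearMap.funLeft ℂ V g) (hg.surjective_comp_right)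

/-- A generic property of the first entry. -/
theorem Gen.of_head {P : V → Prop} (h : Gen (fun ω : ℕ → V => P (ω 0))) : Gen P := by
  let L : (V × (ℕ → V)) →ₗ[ℂ] (ℕ → V) :=
    { toFun := fun p i => if i = 0 then p.1 else p.2 i
      map_add' := by
        intro p q
        funext i
        simp only [Prod.fst_add, Prod.snd_add, Pi.add_apply]
        split_ifs <;> rfl
      map_smul' := by
        intro c p
        funext i
        simp only [Prod.smul_fst, Prod.smul_snd, Pi.smul_apply, RingHom.id_apply]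
        split_ifs <;> rfl }
  have hL : Function.Surjective L := by
    intro ω
    refine ⟨(ω 0, ω), ?_⟩
    funext i
    change (if i = 0 then ω 0 else ω i) = ω i
    split_ifs with h
    · rw [h]
    · rfl
  have h1 := (h.comp L hL).fubini
  refine h1.mono ?_
  intro v hv
  obtain ⟨ω, hω⟩ := hv.exists
  exact hω

end Mix

section Family

set_option linter.unusedSectionVars false

variable {V M T : Type*} [AddCommGroup V] [Module ℂ V] [AddCommGroup M] [Module ℂ M]
  [AddCommGroup T] [Module ℂ T]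

/-- The subspace of all `m` with `μ (ω j) m ∈ Sig A ω`. -/
def Kk (μ : V → M →ₗ[ℂ] T) (S0 : Submodule ℂ T) (A : Finset ℕ) (j : ℕ) (ω : ℕ → V) :
    Submodule ℂ M := (Sig μ S0 A ω).comap (μ (ω j))

theorem Kk_mono (μ : V → M →ₗ[ℂ] T) (S0 : Submodule ℂ T) {A A' : Finset ℕ} (h : A ⊆ A')
    (j : ℕ) (ω : ℕ → V) : Kk μ S0 A j ω ≤ Kk μ S0 A' j ω :=
  Submodule.comap_mono (Sig_mono μ S0 h ω)

theorem Sig_mix (μ : V → M →ₗ[ℂ] T) (S0 : Submodule ℂ T) {A : Finset ℕ} {k : ℕ}
    (hA : ∀ i ∈ A, i < k) (ω' ω'' : ℕ → V) : Sig μ S0 A (mix k ω' ω'') = Sig μ S0 A ω' := by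
  unfold Sig
  congr 1
  refine iSup_congr (fun i => iSup_congr (fun hi => ?_))
  have : mix k ω' ω'' i = ω' i := by
    unfold mix
    rw [if_pos (hA i hi)]
  rw [this]

theorem Sig_mix_shift (μ : V → M →ₗ[ℂ] T) (S0 : Submodule ℂ T) (A : Finset ℕ) (k : ℕ)
    (ω' ω'' : ℕ → V) : Sig μ S0 (A.image (fun i => i + k)) (mix k ω' ω'') = Sig μ S0 A ω'' := by
  rw [Sig_image]
  congr 1
  funext i
  change mix k ω' ω'' (i + k) = ω'' i
  unfold mix
  rw [if_neg (by omega)]
  congr 1
  omega

theorem gen_Sig_reindex {μ : V → M →ₗ[ℂ] T} {S0 : Submodule ℂ T} {Q : Submodule ℂ T → Prop}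
    {t : ℕ} (h : Gen (fun ω : ℕ → V => Q (Sig μ S0 (Finset.range t) ω))) {A : Finset ℕ}
    (hA : A.card = t) : Gen (fun ω : ℕ → V => Q (Sig μ S0 A ω)) := by
  obtain ⟨g, hg1, hg2⟩ := exists_inj_image A
  refine (h.reindex hg1).mono ?_
  intro ω hω
  have : Sig μ S0 A ω = Sig μ S0 (Finset.range t) (ω ∘ g) := by
    rw [← Sig_image, ← hA, hg2]
  rw [this]
  exact hω

variable {μ : V → M →ₗ[ℂ] T} {S0 : Submodule ℂ T} [FiniteDimensional ℂ M]
  [FiniteDimensional ℂ S0] (hμ : ∀ m, PolyMap (fun a => μ a m))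
include hμ

theorem Dm_succ_le (t : ℕ) : Dm μ S0 (t + 1) ≤ Dm μ S0 t + finrank ℂ M := by
  have h := gen_finrank_K (S0 := S0) hμ (Finset.range t) (j := t)
    (by simp)
  rw [Finset.card_range] at h
  obtain ⟨ω, hω⟩ := h.exists
  omega

theorem Dm_le_succ (t : ℕ) : Dm μ S0 t ≤ Dm μ S0 (t + 1) := by
  have h := gen_finrank_K (S0 := S0) hμ (Finset.range t) (j := t)
    (by simp)
  rw [Finset.card_range] at h
  obtain ⟨ω, hω⟩ := h.exists
  have : finrank ℂ ((Sig μ S0 (Finset.range t) ω).comap (μ (ω t))) ≤ finrank ℂ M :=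
    Submodule.finrank_le _
  omega

theorem Dm_mono : Monotone (Dm μ S0) := monotone_nat_of_le_succ (Dm_le_succ hμ)

theorem Dm_concave (t : ℕ) : Dm μ S0 (t + 2) + Dm μ S0 t ≤ 2 * Dm μ S0 (t + 1) := by
  have h1 := gen_finrank_K (S0 := S0) hμ (Finset.range t) (j := t + 5) (by simp)
  have h2 := gen_finrank_K (S0 := S0) hμ (Finset.range (t + 1)) (j := t + 5) (by simp)
  rw [Finset.card_range] at h1 h2
  obtain ⟨ω, e1, e2⟩ := (h1.and h2).exists
  have hle : finrank ℂ ((Sig μ S0 (Finset.range t) ω).comap (μ (ω (t + 5)))) ≤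
      finrank ℂ ((Sig μ S0 (Finset.range (t + 1)) ω).comap (μ (ω (t + 5)))) :=
    Submodule.finrank_mono (Submodule.comap_mono (Sig_mono μ S0
      (Finset.range_mono (by omega)) ω))
  have e3 : t + 1 + 1 = t + 2 := rfl
  rw [e3] at e2
  omega

/-- At a step with equal consecutive gains the kernel does not change when a point is added. -/
theorem gen_Kk_eq_of_step {t : ℕ} (hstep : Dm μ S0 (t + 2) + Dm μ S0 t = 2 * Dm μ S0 (t + 1))
    {A A' : Finset ℕ} (hA : A.card = t) (hA' : A'.card = t + 1) (hsub : A ⊆ A') {j : ℕ}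
    (hj : j ∉ A') : Gen (fun ω : ℕ → V => Kk μ S0 A j ω = Kk μ S0 A' j ω) := by
  have h1 := gen_finrank_K (S0 := S0) hμ A (j := j) (fun h => hj (hsub h))
  have h2 := gen_finrank_K (S0 := S0) hμ A' hj
  rw [hA] at h1
  rw [hA'] at h2
  refine (h1.and h2).mono ?_
  rintro ω ⟨e1, e2⟩
  have e3 : t + 1 + 1 = t + 2 := rfl
  rw [e3] at e2
  apply Submodule.eq_of_le_of_finrank_eq (Kk_mono μ S0 hsub j ω)
  unfold Kk
  omega

theorem gen_Kk_eq {t : ℕ} (hstep : Dm μ S0 (t + 2) + Dm μ S0 t = 2 * Dm μ S0 (t + 1))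
    {A A' : Finset ℕ} (hA : A.card = t) (hA' : A'.card = t) {j : ℕ}
    (hj : j ∉ A) (hj' : j ∉ A') : Gen (fun ω : ℕ → V => Kk μ S0 A j ω = Kk μ S0 A' j ω) := by
  classical
  refine finset_chain (S := {i | i ≠ j})
    (P := fun A A' => A.card = t → Gen (fun ω : ℕ → V => Kk μ S0 A j ω = Kk μ S0 A' j ω) ∧
      A'.card = t) ?_ ?_ ?_ A A' ?_ ?_ (hA.trans hA'.symm) hA |>.1
  · intro A hA
    exact ⟨Gen.of_forall (fun ω => rfl), hA⟩
  · intro A B C h1 h2 hA
    obtain ⟨h3, hB⟩ := h1 hA
    obtain ⟨h4, hC⟩ := h2 hB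
    exact ⟨(h3.and h4).mono (fun ω h => h.1.trans h.2), hC⟩
  · intro A a b hAS ha hb hbA hcard
    have hb' : b ≠ j := hb
    have hc1 : (insert b (A.erase a)).card = t := by
      rw [Finset.card_insert_of_notMem (fun h => hbA (Finset.mem_of_mem_erase h)),
        Finset.card_erase_of_mem ha, hcard]
      have : 0 < A.card := Finset.card_pos.2 ⟨a, ha⟩
      omega
    have hc2 : (insert b A).card = t + 1 := by
      rw [Finset.card_insert_of_notMem hbA, hcard]
    have hj2 : j ∉ insert b A := by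
      intro h
      rcases Finset.mem_insert.1 h with h | h
      · exact hb' h.symm
      · exact (hAS j h) rfl
    have g1 := gen_Kk_eq_of_step hμ hstep hcard hc2 (Finset.subset_insert b A) hj2
    have g2 := gen_Kk_eq_of_step hμ hstep hc1 hc2
      (Finset.insert_subset_insert b (Finset.erase_subset a A)) hj2
    exact ⟨(g1.and g2).mono (fun ω h => h.1.trans h.2.symm), hc1⟩
  · intro i hi
    rintro rfl
    exact hj hi
  · intro i hi
    rintro rfl
    exact hj' hi

/-- At a step with equal consecutive gains the kernel is the canonical subspace. -/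
theorem gen_Can_eq {t : ℕ} (hstep : Dm μ S0 (t + 2) + Dm μ S0 t = 2 * Dm μ S0 (t + 1)) :
    Gen (fun ω : ℕ → V => Can μ S0 t (ω 0) = Kk μ S0 ((Finset.range t).image (fun i => i + 1)) 0 ω)
    := by
  classical
  set A := (Finset.range t).image (fun i => i + 1) with hAdef
  have hAcard : A.card = t := by
    rw [hAdef, Finset.card_image_of_injective _ (fun a b h => by simpa using h),
      Finset.card_range]
  have h0A : 0 ∉ A := by
    rw [hAdef, Finset.mem_image]
    rintro ⟨i, _, hi⟩
    omega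
  set A' := (Finset.range t).image (fun i => i + (t + 1)) with hA'def
  have hA'card : A'.card = t := by
    rw [hA'def, Finset.card_image_of_injective _ (fun a b h => by simpa using h),
      Finset.card_range]
  have h0A' : 0 ∉ A' := by
    rw [hA'def, Finset.mem_image]
    rintro ⟨i, _, hi⟩
    omega
  have h := (gen_Kk_eq hμ hstep hAcard hA'card h0A h0A').mix (t + 1)
  refine h.mono ?_
  intro ω' hω'
  have hlt : ∀ i ∈ A, i < t + 1 := by
    intro i hi
    rw [hAdef, Finset.mem_image] at hi
    obtain ⟨k, hk, rfl⟩ := hi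
    rw [Finset.mem_range] at hk
    omega
  have h0 : ∀ ω'' : ℕ → V, mix (t + 1) ω' ω'' 0 = ω' 0 := by
    intro ω''
    unfold mix
    rw [if_pos (by omega)]
  have e1 : ∀ ω'' : ℕ → V, Kk μ S0 A 0 (mix (t + 1) ω' ω'') = Kk μ S0 A 0 ω' := by
    intro ω''
    unfold Kk
    rw [Sig_mix μ S0 hlt, h0]
  have e2 : ∀ ω'' : ℕ → V, Kk μ S0 A' 0 (mix (t + 1) ω' ω'') =
      (Sig μ S0 (Finset.range t) ω'').comap (μ (ω' 0)) := by
    intro ω''
    unfold Kk
    rw [hA'def, Sig_mix_shift, h0]
  ext ξ
  constructor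
  · intro hξ
    obtain ⟨ω'', h1, h2⟩ := (Gen.and hξ hω').exists
    rw [e1, e2] at h2
    rw [h2]
    exact h1
  · intro hξ
    refine hω'.mono ?_
    intro ω'' h2
    rw [e1, e2] at h2
    rw [h2] at hξ
    exact hξ

theorem gen_finrank_Can {t : ℕ} (hstep : Dm μ S0 (t + 2) + Dm μ S0 t = 2 * Dm μ S0 (t + 1)) :
    Gen (fun b : V => finrank ℂ (Can μ S0 t b) + Dm μ S0 (t + 1) =
      Dm μ S0 t + finrank ℂ M) := by
  classical
  apply Gen.of_head
  have h1 := gen_Can_eq hμ hstep
  have h2 := gen_finrank_K (S0 := S0) hμ ((Finset.range t).image (fun i => i + 1)) (j := 0) (by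
    rw [Finset.mem_image]
    rintro ⟨i, _, hi⟩
    omega)
  rw [Finset.card_image_of_injective _ (fun a b h => by simpa using h),
      Finset.card_range] at h2
  refine (h1.and h2).mono ?_
  rintro ω ⟨e1, e2⟩
  rw [e1]
  exact e2

/-- Lower bound for the generic rank from a generically contained subspace. -/
theorem Dm_ge_of_contained {t : ℕ} (Z : Submodule ℂ T) [FiniteDimensional ℂ Z]
    (hZ : Gen (fun ω : ℕ → V => Z ≤ Sig μ S0 (Finset.range t) ω)) :
    finrank ℂ Z + t * (Dm μ S0 (t + 1) - Dm μ S0 t) ≤ Dm μ S0 t := by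
  classical
  have hfd : FiniteDimensional ℂ (Z ⊔ S0 : Submodule ℂ T) := inferInstance
  set S' : Submodule ℂ T := Z ⊔ S0 with hS'
  set γ := Dm μ S0 (t + 1) - Dm μ S0 t with hγ
  have hSig : ∀ (A : Finset ℕ) (ω : ℕ → V), Sig μ S' A ω = Z ⊔ Sig μ S0 A ω := by
    intro A ω
    unfold Sig
    rw [hS', sup_assoc]
  have key : ∀ s, s ≤ t → finrank ℂ S' + s * γ ≤ Dm μ S' s := by
    intro s
    induction s with
    | zero =>
      intro _
      obtain ⟨ω, hω⟩ := exists_finrank_Sig μ S' 0
      rw [← hω, Finset.range_zero, Sig_empty]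
      simp
    | succ s ih =>
      intro hs
      have ih' := ih (by omega)
      set A'' : Finset ℕ := Finset.range s ∪ Finset.Ioc s t with hA''
      have hcard : A''.card = t := by
        rw [hA'', Finset.card_union_of_disjoint, Finset.card_range, Nat.card_Ioc]
        · omega
        · rw [Finset.disjoint_left]
          intro a ha hb
          rw [Finset.mem_range] at ha
          rw [Finset.mem_Ioc] at hb
          omega
      have hsA : s ∉ A'' := by
        rw [hA'', Finset.mem_union, Finset.mem_range, Finset.mem_Ioc]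
        omega
      have g1 := gen_Sig_reindex (Q := fun S => Z ≤ S) hZ hcard
      have g2 := gen_finrank_K (S0 := S0) hμ A'' hsA
      have g3 := gen_finrank_K (S0 := S') hμ (Finset.range s) (j := s) (by simp)
      rw [hcard] at g2
      rw [Finset.card_range] at g3
      obtain ⟨ω, ⟨e1, e2⟩, e3⟩ := ((g1.and g2).and g3).exists
      have hle : finrank ℂ ((Sig μ S' (Finset.range s) ω).comap (μ (ω s))) ≤
          finrank ℂ ((Sig μ S0 A'' ω).comap (μ (ω s))) := by
        apply Submodule.finrank_mono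
        apply Submodule.comap_mono
        rw [hSig]
        exact sup_le e1 (Sig_mono μ S0 Finset.subset_union_left ω)
      have hmono := Dm_le_succ (S0 := S0) hμ t
      have : Dm μ S' s + γ ≤ Dm μ S' (s + 1) := by omega
      calc finrank ℂ S' + (s + 1) * γ = (finrank ℂ S' + s * γ) + γ := by ring
        _ ≤ Dm μ S' s + γ := by omega
        _ ≤ Dm μ S' (s + 1) := this
  have h1 := key t le_rfl
  have g4 := gen_finrank_Sig (S0 := S') hμ (Finset.range t)
  have g5 := gen_finrank_Sig (S0 := S0) hμ (Finset.range t)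
  rw [Finset.card_range] at g4 g5
  obtain ⟨ω, ⟨e4, e5⟩, e6⟩ := ((g4.and g5).and hZ).exists
  have e7 : Sig μ S' (Finset.range t) ω = Sig μ S0 (Finset.range t) ω := by
    rw [hSig]
    exact sup_eq_right.2 e6
  rw [e7, e5] at e4
  rw [← e4] at h1
  have h2 : finrank ℂ Z ≤ finrank ℂ S' := Submodule.finrank_mono le_sup_left
  omega

/-- Dichotomy: a polynomially varying vector generically lies in `Sig`, or generically not. -/
theorem gen_mem_dichotomy {v : (ℕ → V) → T} (hv : PolyMap v) (A : Finset ℕ) :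
    Gen (fun ω : ℕ → V => v ω ∈ Sig μ S0 A ω) ∨ Gen (fun ω : ℕ → V => v ω ∉ Sig μ S0 A ω) := by
  classical
  by_cases h : ∃ ω0 : ℕ → V, finrank ℂ (Sig μ S0 A ω0) = Dm μ S0 A.card ∧ v ω0 ∉ Sig μ S0 A ω0
  · right
    obtain ⟨ω0, h1, h2⟩ := h
    have g := gen_finrank_span (E := ℕ → V) (T := T)
      (J := Option (Fin (finrank ℂ S0) ⊕ (A × Fin (finrank ℂ M))))
      (u := fun j ω => Option.elim j (v ω) (fun j => Sum.elim
        (fun i => ((finBasis ℂ S0 i : S0) : T)) (fun p => μ (ω p.1) (finBasis ℂ M p.2)) j)) ?_ ω0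
    · refine g.mono ?_
      intro ω hω hmem
      have hspan : ∀ ω : ℕ → V, Submodule.span ℂ (Set.range fun j : Option (Fin (finrank ℂ S0) ⊕
          (A × Fin (finrank ℂ M))) => Option.elim j (v ω) (fun j => Sum.elim
          (fun i => ((finBasis ℂ S0 i : S0) : T))
          (fun p => μ (ω p.1) (finBasis ℂ M p.2)) j)) =
          Sig μ S0 A ω ⊔ Submodule.span ℂ {v ω} := by
        intro ω
        rw [Sig_eq_span A ω, ← Submodule.span_union]
        congr 1
        ext z
        constructor
        · rintro ⟨(_ | j), rfl⟩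
          · right; rfl
          · left; exact ⟨j, rfl⟩
        · rintro (⟨j, rfl⟩ | hz)
          · exact ⟨some j, rfl⟩
          · rw [Set.mem_singleton_iff] at hz
            exact ⟨none, hz.symm⟩
      rw [hspan ω0, hspan ω] at hω
      have e1 : Sig μ S0 A ω ⊔ Submodule.span ℂ {v ω} = Sig μ S0 A ω := by
        rw [sup_eq_left, Submodule.span_le, Set.singleton_subset_iff]
        exact hmem
      have e2 : finrank ℂ (Sig μ S0 A ω0) < finrank ℂ (Sig μ S0 A ω0 ⊔ Submodule.span ℂ {v ω0} :
          Submodule ℂ T) := by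
        apply Submodule.finrank_lt_finrank_of_lt
        rw [left_lt_sup]
        intro hle
        exact h2 (hle (Submodule.mem_span_singleton_self _))
      rw [e1] at hω
      have e3 := finrank_Sig_le_Dm μ S0 A ω
      omega
    · rintro (_ | (i | ⟨⟨i, hi⟩, j⟩))
      · exact hv
      · exact PolyMap.const _
      · exact polyMap_proj hμ i _
  · left
    push Not at h
    exact (gen_finrank_Sig (S0 := S0) hμ A).mono (fun ω hω => h ω hω)

end Family

end Pool.Agent.Helper93.TP
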