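import Mathlib
import Pool.Agent.Helper93.TP.Fam2

/-!
Growth of the gains: if the span is not everything, then the kernels grow by at least one at
each step, and by at least two once they are larger than the forced Koszul part.
-/

namespace Pool.Agent.Helper93.TP

set_option linter.unusedSectionVars false

open Module

section MixS

variable {V : Type*} [AddCommGroup V] [Module ℂ V]

/-- Take the entries with index in `S` from the first sequence, the others from the second. -/
def mixS (S : Finset ℕ) (ω' ω'' : ℕ → V) : ℕ → V := fun i => if i ∈ S then ω' i else ω'' i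

/-- `mixS` as a linear map. -/
def mixSL (V : Type*) [AddCommGroup V] [Module ℂ V] (S : Finset ℕ) :
    ((ℕ → V) × (ℕ → V)) →ₗ[ℂ] (ℕ → V) where
  toFun p := mixS S p.1 p.2
  map_add' := by
    intro p q
    funext i
    simp only [mixS, Prod.fst_add, Prod.snd_add, Pi.add_apply]
    split_ifs <;> rfl
  map_smul' := by
    intro c p
    funext i
    simp only [mixS, Prod.smul_fst, Prod.smul_snd, Pi.smul_apply, RingHom.id_apply]
    split_ifs <;> rfl

theorem mixSL_surjective (S : Finset ℕ) : Function.Surjective (mixSL V S) := by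
  intro ω
  refine ⟨(ω, ω), ?_⟩
  funext i
  change mixS S ω ω i = ω i
  unfold mixS
  split_ifs <;> rfl

theorem Gen.mixS {Q : (ℕ → V) → Prop} (h : Gen Q) (S : Finset ℕ) :
    Gen (fun ω' : ℕ → V => Gen (fun ω'' : ℕ → V => Q (TP.mixS S ω' ω''))) :=
  (h.comp (mixSL V S) (mixSL_surjective S)).fubini

theorem mixS_mem {S : Finset ℕ} {i : ℕ} (hi : i ∈ S) (ω' ω'' : ℕ → V) :
    TP.mixS S ω' ω'' i = ω' i := by
  unfold TP.mixS
  rw [if_pos hi]

theorem mixS_notMem {S : Finset ℕ} {i : ℕ} (hi : i ∉ S) (ω' ω'' : ℕ → V) :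
    TP.mixS S ω' ω'' i = ω'' i := by
  unfold TP.mixS
  rw [if_neg hi]

variable {M T : Type*} [AddCommGroup M] [Module ℂ M] [AddCommGroup T] [Module ℂ T]

theorem Sig_congr (μ : V → M →ₗ[ℂ] T) (S0 : Submodule ℂ T) {A : Finset ℕ} {ω ω' : ℕ → V}
    (h : ∀ i ∈ A, ω i = ω' i) : Sig μ S0 A ω = Sig μ S0 A ω' := by
  unfold Sig
  congr 1
  refine iSup_congr (fun i => iSup_congr (fun hi => ?_))
  rw [h i hi]

theorem Sig_mixS_sub (μ : V → M →ₗ[ℂ] T) (S0 : Submodule ℂ T) {A S : Finset ℕ}
    (hA : ∀ i ∈ A, i ∈ S) (ω' ω'' : ℕ → V) :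
    Sig μ S0 A (TP.mixS S ω' ω'') = Sig μ S0 A ω' :=
  Sig_congr μ S0 (fun i hi => mixS_mem (hA i hi) _ _)

theorem Sig_mixS_disj (μ : V → M →ₗ[ℂ] T) (S0 : Submodule ℂ T) {A S : Finset ℕ}
    (hA : ∀ i ∈ A, i ∉ S) (ω' ω'' : ℕ → V) :
    Sig μ S0 A (TP.mixS S ω' ω'') = Sig μ S0 A ω'' :=
  Sig_congr μ S0 (fun i hi => mixS_notMem (hA i hi) _ _)

end MixS

section LinAlg

variable {M : Type*} [AddCommGroup M] [Module ℂ M] [FiniteDimensional ℂ M]

theorem inf_eq_of_finrank {K1 K2 L : Submodule ℂ M} {k : ℕ} (h1 : finrank ℂ K1 = k + 1)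
    (h2 : finrank ℂ K2 = k + 1) (hL : finrank ℂ L = k) (hL1 : L ≤ K1) (hL2 : L ≤ K2)
    (hne : ¬ K1 ≤ K2) : L = K1 ⊓ K2 := by
  have hlt : K1 ⊓ K2 < K1 := by
    refine lt_of_le_of_ne inf_le_left ?_
    intro h
    exact hne (inf_eq_left.1 h)
  have h3 : finrank ℂ (K1 ⊓ K2 : Submodule ℂ M) < finrank ℂ K1 :=
    Submodule.finrank_lt_finrank_of_lt hlt
  apply Submodule.eq_of_le_of_finrank_le (le_inf hL1 hL2)
  omega

theorem finrank_iInf_ge (K : Submodule ℂ M) {L : ℕ → Submodule ℂ M} (s : Finset ℕ)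
    (hL : ∀ i ∈ s, L i ≤ K) (hf : ∀ i ∈ s, finrank ℂ K ≤ finrank ℂ (L i) + 1) :
    finrank ℂ K ≤ finrank ℂ (K ⊓ ⨅ i ∈ s, L i : Submodule ℂ M) + s.card := by
  classical
  induction s using Finset.induction_on with
  | empty =>
    have e0 : (⨅ i ∈ (∅ : Finset ℕ), L i) = ⊤ := by simp
    rw [e0, inf_top_eq]
    simp
  | insert a s ha ih =>
    have ih' := ih (fun i hi => hL i (Finset.mem_insert_of_mem hi))
      (fun i hi => hf i (Finset.mem_insert_of_mem hi))
    have hLa := hL a (Finset.mem_insert_self a s)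
    have hfa := hf a (Finset.mem_insert_self a s)
    rw [Finset.card_insert_of_notMem ha, Finset.iInf_insert]
    have e : (K ⊓ (L a ⊓ ⨅ x ∈ s, L x) : Submodule ℂ M) = (K ⊓ ⨅ i ∈ s, L i) ⊓ L a := by
      rw [inf_comm (L a), ← inf_assoc]
    rw [e]
    have h1 := Submodule.finrank_sup_add_finrank_inf_eq (K ⊓ ⨅ i ∈ s, L i) (L a)
    have h2 : finrank ℂ ((K ⊓ ⨅ i ∈ s, L i) ⊔ L a : Submodule ℂ M) ≤ finrank ℂ K :=
      Submodule.finrank_mono (sup_le inf_le_left hLa)
    omega

end LinAlg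

section Growth

set_option linter.unusedSectionVars false

variable {V M T : Type*} [AddCommGroup V] [Module ℂ V] [AddCommGroup M] [Module ℂ M]
  [AddCommGroup T] [Module ℂ T]

/-- No nonzero vector lies generically in the span for `t` points. -/
def NoFix (μ : V → M →ₗ[ℂ] T) (t : ℕ) : Prop :=
  ∀ F : T, F ≠ 0 → ¬ Gen (fun ω : ℕ → V => F ∈ Sig μ ⊥ (Finset.range t) ω)

theorem NoFix.anti {μ : V → M →ₗ[ℂ] T} {t t' : ℕ} (h : NoFix μ t') (htt : t ≤ t') :
    NoFix μ t := by
  intro F hF hG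
  apply h F hF
  refine hG.mono ?_
  intro ω hω
  exact Sig_mono μ ⊥ (Finset.range_mono htt) ω hω

variable {μ : V → M →ₗ[ℂ] T} [FiniteDimensional ℂ M]
  (hμ : ∀ m, PolyMap (fun a => μ a m))
include hμ

theorem NoFix.finset {t : ℕ} (h : NoFix μ t) {A : Finset ℕ} (hA : A.card = t) {F : T}
    (hF : F ≠ 0) : ¬ Gen (fun ω : ℕ → V => F ∈ Sig μ ⊥ A ω) := by
  intro hG
  rcases gen_mem_dichotomy (S0 := ⊥) hμ (v := fun _ => F) (PolyMap.const F)
    (Finset.range t) with h1 | h1
  · exact h F hF h1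
  · have h2 := gen_Sig_reindex (Q := fun S => F ∉ S) h1 hA
    obtain ⟨ω, h3, h4⟩ := (hG.and h2).exists
    exact h4 h3

theorem polyMap_apply {s : V → M} (hs : PolyMap s) (j a : ℕ) :
    PolyMap (fun ω : ℕ → V => μ (ω j) (s (ω a))) := by
  obtain ⟨k, φ, t, h1, h2⟩ := hs
  have e : (fun ω : ℕ → V => μ (ω j) (s (ω a))) =
      fun ω => ∑ i, φ i (ω a) • μ (ω j) (t i) := by
    funext ω
    rw [h2, map_sum]
    simp
  rw [e]
  refine PolyMap.sum _ (fun i _ => PolyMap.smul ?_ (polyMap_proj hμ j (t i)))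
  exact PolyFun.comp_linear (h1 i) (LinearMap.proj (R := ℂ) (φ := fun _ : ℕ => V) a)

variable {s : V → M} (hs : PolyMap s)
  (hne : ∀ j a : ℕ, j ≠ a → Gen (fun ω : ℕ → V => μ (ω j) (s (ω a)) ≠ 0))
include hs hne

theorem gen_special_notMem {t : ℕ} (hH : NoFix μ t) {A : Finset ℕ} (hA : A.card = t)
    {j a : ℕ} (hj : j ∉ A) (ha : a ∉ A) (hja : j ≠ a) :
    Gen (fun ω : ℕ → V => s (ω a) ∉ Kk μ ⊥ A j ω) := by
  classical
  rcases gen_mem_dichotomy (S0 := ⊥) hμ (polyMap_apply hμ hs j a) A with h1 | h1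
  · exfalso
    have h2 := h1.mixS {j, a}
    obtain ⟨ω', h3, h4⟩ := (h2.and (hne j a hja)).exists
    refine NoFix.finset hμ hH hA h4 (h3.mono ?_)
    intro ω'' h5
    rw [Sig_mixS_disj μ ⊥ (S := {j, a}) (by
      intro i hi
      rw [Finset.mem_insert, Finset.mem_singleton]
      rintro (rfl | rfl)
      · exact hj hi
      · exact ha hi), mixS_mem (by simp), mixS_mem (by simp)] at h5
    exact h5
  · exact h1

variable (hspec : ∀ a b : V, μ b (s a) ∈ LinearMap.range (μ a))
include hspec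

theorem special_mem {A : Finset ℕ} {a : ℕ} (ha : a ∈ A) (j : ℕ) (ω : ℕ → V) :
    s (ω a) ∈ Kk μ ⊥ A j ω := by
  unfold Kk
  rw [Submodule.mem_comap]
  exact range_le_Sig μ ⊥ ha ω (hspec _ _)

/-- The kernel grows at each step by at least one. -/
theorem growth_one {t : ℕ} (hH : NoFix μ t) :
    Dm μ ⊥ (t + 2) + Dm μ ⊥ t + 1 ≤ 2 * Dm μ ⊥ (t + 1) := by
  classical
  have h1 := gen_finrank_K (S0 := ⊥) hμ (Finset.range t) (j := t + 1) (by simp)
  have h2 := gen_finrank_K (S0 := ⊥) hμ (Finset.range (t + 1)) (j := t + 1) (by simp)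
  have h3 := gen_special_notMem hμ hs hne hH (A := Finset.range t) (by simp) (j := t + 1)
    (a := t) (by simp) (by simp) (by omega)
  rw [Finset.card_range] at h1 h2
  obtain ⟨ω, ⟨e1, e2⟩, e3⟩ := ((h1.and h2).and h3).exists
  have hlt : Kk μ ⊥ (Finset.range t) (t + 1) ω < Kk μ ⊥ (Finset.range (t + 1)) (t + 1) ω := by
    refine lt_of_le_of_ne (Kk_mono μ ⊥ (Finset.range_mono (by omega)) _ _) ?_
    intro h
    apply e3
    rw [h]
    exact special_mem hμ hs hne hspec (by simp) _ _
  have h4 := Submodule.finrank_lt_finrank_of_lt hlt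
  unfold Kk at h4
  have e4 : t + 1 + 1 = t + 2 := rfl
  rw [e4] at e2
  omega

variable (hinj : Gen (fun b : V => Function.Injective (μ b)))
include hinj

/-- If the kernel is larger than the Koszul part then it grows by at least two. -/
theorem growth_two {t : ℕ} (hH : NoFix μ (t + 1))
    (hk : Dm μ ⊥ (t + 1) + t + 1 ≤ finrank ℂ M + Dm μ ⊥ t) :
    Dm μ ⊥ (t + 2) + Dm μ ⊥ t + 2 ≤ 2 * Dm μ ⊥ (t + 1) := by
  classical
  have hone := growth_one hμ hs hne hspec (hH.anti (Nat.le_succ t))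
  by_contra hcon
  have heq : 2 * Dm μ ⊥ (t + 1) = Dm μ ⊥ (t + 2) + Dm μ ⊥ t + 1 := by omega
  set k : ℕ := finrank ℂ M + Dm μ ⊥ t - Dm μ ⊥ (t + 1) with hkdef
  -- dimensions of the kernels
  have hdim0 : ∀ A : Finset ℕ, A.card = t → 0 ∉ A →
      Gen (fun ω : ℕ → V => finrank ℂ (Kk μ ⊥ A 0 ω) = k) := by
    intro A hA h0
    refine (gen_finrank_K (S0 := ⊥) hμ A h0).mono ?_
    intro ω e
    rw [hA] at e
    unfold Kk
    omega
  have hdim1 : ∀ A : Finset ℕ, A.card = t + 1 → 0 ∉ A →
      Gen (fun ω : ℕ → V => finrank ℂ (Kk μ ⊥ A 0 ω) = k + 1) := by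
    intro A hA h0
    refine (gen_finrank_K (S0 := ⊥) hμ A h0).mono ?_
    intro ω e
    rw [hA] at e
    have e4 : t + 1 + 1 = t + 2 := rfl
    rw [e4] at e
    unfold Kk
    omega
  let Fx : Finset ℕ → (ℕ → V) → Submodule ℂ M := fun A ω => ⨅ i ∈ A, Kk μ ⊥ (A.erase i) 0 ω
  -- the key identity
  have hkey : ∀ D : Finset ℕ, D.card = t + 2 → 0 ∉ D →
      Gen (fun ω : ℕ → V => ∀ i ∈ D, Fx (D.erase i) ω = ⨅ l ∈ D, Kk μ ⊥ (D.erase l) 0 ω) := by
    intro D hD h0
    have g1 : Gen (fun ω : ℕ → V => ∀ i ∈ D, finrank ℂ (Kk μ ⊥ (D.erase i) 0 ω) = k + 1) := by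
      apply Gen.forall_finset
      intro i hi
      apply hdim1
      · rw [Finset.card_erase_of_mem hi, hD]; rfl
      · exact fun h => h0 (Finset.mem_of_mem_erase h)
    have g2 : Gen (fun ω : ℕ → V => ∀ i ∈ D, ∀ l ∈ D.erase i,
        finrank ℂ (Kk μ ⊥ ((D.erase i).erase l) 0 ω) = k) := by
      apply Gen.forall_finset
      intro i hi
      apply Gen.forall_finset
      intro l hl
      apply hdim0
      · rw [Finset.card_erase_of_mem hl, Finset.card_erase_of_mem hi, hD]; rfl
      · exact fun h => h0 (Finset.mem_of_mem_erase (Finset.mem_of_mem_erase h))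
    have g3 : Gen (fun ω : ℕ → V => ∀ i ∈ D, s (ω i) ∉ Kk μ ⊥ (D.erase i) 0 ω) := by
      apply Gen.forall_finset
      intro i hi
      apply gen_special_notMem hμ hs hne hH
      · rw [Finset.card_erase_of_mem hi, hD]; rfl
      · exact fun h => h0 (Finset.mem_of_mem_erase h)
      · simp
      · rintro rfl
        exact h0 hi
    refine ((g1.and g2).and g3).mono ?_
    rintro ω ⟨⟨e1, e2⟩, e3⟩ i hi
    have hpair : ∀ l ∈ D.erase i, Kk μ ⊥ ((D.erase i).erase l) 0 ω =
        Kk μ ⊥ (D.erase i) 0 ω ⊓ Kk μ ⊥ (D.erase l) 0 ω := by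
      intro l hl
      have hl' := Finset.mem_of_mem_erase hl
      have hli : l ≠ i := Finset.ne_of_mem_erase hl
      apply inf_eq_of_finrank (e1 i hi) (e1 l hl') (e2 i hi l hl)
      · exact Kk_mono μ ⊥ (Finset.erase_subset _ _) _ _
      · apply Kk_mono
        rw [Finset.erase_right_comm]
        exact Finset.erase_subset _ _
      · intro hle
        apply e3 l hl'
        apply hle
        exact special_mem hμ hs hne hspec hl _ _
    ext x
    simp only [Fx, Submodule.mem_iInf]
    constructor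
    · intro h l hl
      by_cases hli : l = i
      · subst hli
        have hex : (D.erase l).Nonempty := by
          rw [← Finset.card_pos, Finset.card_erase_of_mem hl, hD]
          omega
        obtain ⟨m, hm⟩ := hex
        have := h m hm
        rw [hpair m hm] at this
        exact this.1
      · have hl2 : l ∈ D.erase i := Finset.mem_erase.2 ⟨hli, hl⟩
        have := h l hl2
        rw [hpair l hl2] at this
        exact this.2
    · intro h l hl
      rw [hpair l hl]
      exact ⟨h i hi, h l (Finset.mem_of_mem_erase hl)⟩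
  -- independence of the set
  have hind : ∀ A A' : Finset ℕ, A.card = t + 1 → A'.card = t + 1 → 0 ∉ A → 0 ∉ A' →
      Gen (fun ω : ℕ → V => Fx A ω = Fx A' ω) := by
    intro A A' hA hA' h0 h0'
    refine finset_chain (S := {i | i ≠ 0})
      (P := fun A A' => A.card = t + 1 → Gen (fun ω : ℕ → V => Fx A ω = Fx A' ω) ∧
        A'.card = t + 1) ?_ ?_ ?_ A A' ?_ ?_ (hA.trans hA'.symm) hA |>.1
    · intro A hA
      exact ⟨Gen.of_forall (fun ω => rfl), hA⟩
    · intro A B C h1 h2 hA
      obtain ⟨h3, hB⟩ := h1 hA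
      obtain ⟨h4, hC⟩ := h2 hB
      exact ⟨(h3.and h4).mono (fun ω h => h.1.trans h.2), hC⟩
    · intro A a b hAS ha hb hbA hcard
      have hb' : b ≠ 0 := hb
      have hc1 : (insert b (A.erase a)).card = t + 1 := by
        rw [Finset.card_insert_of_notMem (fun h => hbA (Finset.mem_of_mem_erase h)),
          Finset.card_erase_of_mem ha, hcard]
        rfl
      have hc2 : (insert b A).card = t + 2 := by
        rw [Finset.card_insert_of_notMem hbA, hcard]
      have hj2 : 0 ∉ insert b A := by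
        intro h
        rcases Finset.mem_insert.1 h with h | h
        · exact hb' h.symm
        · exact (hAS 0 h) rfl
      have hab : a ≠ b := by
        rintro rfl
        exact hbA ha
      refine ⟨(hkey (insert b A) hc2 hj2).mono ?_, hc1⟩
      intro ω h
      have e1 := h b (Finset.mem_insert_self b A)
      have e2 := h a (Finset.mem_insert_of_mem ha)
      rw [Finset.erase_insert hbA] at e1
      rw [Finset.erase_insert_of_ne hab.symm] at e2
      rw [e1, e2]
    · intro i hi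
      rintro rfl
      exact h0 hi
    · intro i hi
      rintro rfl
      exact h0' hi
  -- choose two disjoint sets
  set A : Finset ℕ := (Finset.range (t + 1)).image (fun i => i + 1) with hAdef
  set A' : Finset ℕ := (Finset.range (t + 1)).image (fun i => i + (t + 2)) with hA'def
  have hA : A.card = t + 1 := by
    rw [hAdef, Finset.card_image_of_injective _ (fun a b h => by simpa using h),
      Finset.card_range]
  have hA' : A'.card = t + 1 := by
    rw [hA'def, Finset.card_image_of_injective _ (fun a b h => by simpa using h),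
      Finset.card_range]
  have hAmem : ∀ i, i ∈ A ↔ 1 ≤ i ∧ i < t + 2 := by
    intro i
    rw [hAdef, Finset.mem_image]
    constructor
    · rintro ⟨l, hl, rfl⟩
      rw [Finset.mem_range] at hl
      omega
    · rintro ⟨h1, h2⟩
      refine ⟨i - 1, ?_, by omega⟩
      rw [Finset.mem_range]
      omega
  have hA'mem : ∀ i, i ∈ A' ↔ t + 2 ≤ i ∧ i < 2 * t + 3 := by
    intro i
    rw [hA'def, Finset.mem_image]
    constructor
    · rintro ⟨l, hl, rfl⟩
      rw [Finset.mem_range] at hl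
      omega
    · rintro ⟨h1, h2⟩
      refine ⟨i - (t + 2), ?_, by omega⟩
      rw [Finset.mem_range]
      omega
  have h0A : 0 ∉ A := by
    rw [hAmem]; omega
  have h0A' : 0 ∉ A' := by
    rw [hA'mem]; omega
  have g1 := (hind A A' hA hA' h0A h0A').mixS (Finset.range (t + 2))
  have g2 := hdim1 A hA h0A
  have g3 : Gen (fun ω : ℕ → V => ∀ i ∈ A, finrank ℂ (Kk μ ⊥ (A.erase i) 0 ω) = k) := by
    apply Gen.forall_finset
    intro i hi
    apply hdim0
    · rw [Finset.card_erase_of_mem hi, hA]; rfl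
    · exact fun h => h0A (Finset.mem_of_mem_erase h)
  have g4 : Gen (fun ω : ℕ → V => Function.Injective (μ (ω 0))) :=
    hinj.comp (LinearMap.proj (R := ℂ) (φ := fun _ : ℕ => V) 0)
      (fun v => ⟨fun _ => v, rfl⟩)
  obtain ⟨ω', ⟨⟨e1, e2⟩, e3⟩, e4⟩ := (((g1.and g2).and g3).and g4).exists
  have hpos : 0 < finrank ℂ (Fx A ω') := by
    have h5 := finrank_iInf_ge (Kk μ ⊥ A 0 ω') (L := fun i => Kk μ ⊥ (A.erase i) 0 ω') A
      (fun i hi => Kk_mono μ ⊥ (Finset.erase_subset _ _) _ _)
      (fun i hi => by rw [e2, e3 i hi])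
    rw [e2, hA] at h5
    have h6 : finrank ℂ (Kk μ ⊥ A 0 ω' ⊓ ⨅ i ∈ A, Kk μ ⊥ (A.erase i) 0 ω' : Submodule ℂ M) ≤
        finrank ℂ (Fx A ω') := Submodule.finrank_mono inf_le_right
    omega
  obtain ⟨⟨q, hq⟩, hq0⟩ := (Module.finrank_pos_iff_exists_ne_zero (R := ℂ)).1 hpos
  have hq0' : q ≠ 0 := by
    intro h
    apply hq0
    ext
    exact h
  have hFne : μ (ω' 0) q ≠ 0 := by
    intro h
    apply hq0'
    apply e4
    rw [h, map_zero]
  have hmem2 : t + 2 ∈ A' := by
    rw [hA'mem]; omega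
  refine NoFix.finset hμ (hH.anti (Nat.le_succ t)) (A := A'.erase (t + 2)) (by
    rw [Finset.card_erase_of_mem hmem2, hA']; rfl) hFne (e1.mono ?_)
  intro ω'' h7
  have h8 : q ∈ Fx A (TP.mixS (Finset.range (t + 2)) ω' ω'') := by
    simp only [Fx, Submodule.mem_iInf, Kk, Submodule.mem_comap] at hq ⊢
    intro i hi
    rw [Sig_mixS_sub μ ⊥ (S := Finset.range (t + 2)), mixS_mem]
    · exact hq i hi
    · simp
    · intro l hl
      have := (hAmem l).1 (Finset.mem_of_mem_erase hl)
      rw [Finset.mem_range]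
      omega
  rw [h7] at h8
  simp only [Fx, Submodule.mem_iInf, Kk, Submodule.mem_comap] at h8
  have h9 := h8 (t + 2) hmem2
  rw [Sig_mixS_disj μ ⊥ (S := Finset.range (t + 2)), mixS_mem] at h9
  · exact h9
  · simp
  · intro l hl
    have := (hA'mem l).1 (Finset.mem_of_mem_erase hl)
    rw [Finset.mem_range]
    omega

end Growth

theorem seq_growth (e : ℕ → ℤ) {R r : ℕ} (hr : r ≤ R) (h0 : 0 ≤ e 0)
    (h1 : ∀ t, t < R → e t ≤ e (t + 1))
    (h2 : ∀ t, t + 1 < R → 1 ≤ e t → e t + 1 ≤ e (t + 1)) :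
    (∑ s ∈ Finset.range r, e s = 0) ∨
      (((R - r + 2).choose 2 : ℕ) : ℤ) ≤ ∑ s ∈ Finset.range R, e s := by
  have hnn : ∀ t, t ≤ R → 0 ≤ e t := by
    intro t
    induction t with
    | zero => intro _; exact h0
    | succ t ih => intro ht; exact (ih (by omega)).trans (h1 t (by omega))
  by_cases hz : ∀ s, s < r → e s = 0
  · left
    exact Finset.sum_eq_zero (fun s hs => hz s (Finset.mem_range.1 hs))
  · right
    push Not at hz
    obtain ⟨s0, hs0, hne⟩ := hz
    have hpos : 1 ≤ e s0 := by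
      have := hnn s0 (by omega)
      omega
    have hgr : ∀ i, s0 + i < R → (i : ℤ) + 1 ≤ e (s0 + i) := by
      intro i
      induction i with
      | zero => intro _; simpa using hpos
      | succ i ih =>
        intro hi
        have ih' := ih (by omega)
        have := h2 (s0 + i) (by omega) (by omega)
        push_cast
        rw [← add_assoc]
        linarith
    have hsum : ∀ m, s0 + m ≤ R → (((m + 1).choose 2 : ℕ) : ℤ) ≤
        ∑ s ∈ Finset.range (s0 + m), e s := by
      intro m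
      induction m with
      | zero =>
        intro _
        have : (0 + 1 : ℕ).choose 2 = 0 := rfl
        rw [this]
        simp only [Nat.cast_zero]
        exact Finset.sum_nonneg (fun s hs => hnn s (by
          rw [Finset.mem_range] at hs
          omega))
      | succ m ih =>
        intro hm
        have ih' := ih (by omega)
        have hg := hgr m (by omega)
        rw [← add_assoc, Finset.sum_range_succ]
        have hc : (m + 1 + 1).choose 2 = (m + 1).choose 2 + (m + 1) := by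
          have h7 := Nat.choose_succ_succ' (m + 1) 1
          simp only [Nat.reduceAdd, Nat.choose_one_right] at h7
          omega
        rw [hc]
        push_cast
        linarith
    have h5 := hsum (R - s0) (by omega)
    have h6 : s0 + (R - s0) = R := by omega
    rw [h6] at h5
    refine le_trans ?_ h5
    have : (R - r + 2).choose 2 ≤ (R - s0 + 1).choose 2 := Nat.choose_le_choose 2 (by omega)
    exact_mod_cast this

section Main

variable {V M T : Type*} [AddCommGroup V] [Module ℂ V] [AddCommGroup M] [Module ℂ M]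
  [AddCommGroup T] [Module ℂ T]

/-- The growth theorem. -/
theorem growth {μ : V → M →ₗ[ℂ] T} [FiniteDimensional ℂ M]
    (hμ : ∀ m, PolyMap (fun a => μ a m)) {s : V → M} (hs : PolyMap s)
    (hne : ∀ j a : ℕ, j ≠ a → Gen (fun ω : ℕ → V => μ (ω j) (s (ω a)) ≠ 0))
    (hspec : ∀ a b : V, μ b (s a) ∈ LinearMap.range (μ a))
    (hinj : Gen (fun b : V => Function.Injective (μ b)))
    {R r : ℕ} (hr : r ≤ R) (hH : ∀ t, t < R → NoFix μ t) :
    (Dm μ ⊥ r + r.choose 2 = r * finrank ℂ M) ∨
      (Dm μ ⊥ R + R.choose 2 + (R - r + 2).choose 2 ≤ R * finrank ℂ M) := by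
  let e : ℕ → ℤ := fun t => (finrank ℂ M : ℤ) + Dm μ ⊥ t - Dm μ ⊥ (t + 1) - t
  have hD0 : Dm μ ⊥ 0 = 0 := by
    obtain ⟨ω, hω⟩ := exists_finrank_Sig μ ⊥ 0
    rw [← hω, Finset.range_zero, Sig_empty]
    exact finrank_bot ℂ T
  have hsum : ∀ t, ∑ s ∈ Finset.range t, e s =
      (t : ℤ) * finrank ℂ M - Dm μ ⊥ t - (t.choose 2 : ℕ) := by
    intro t
    induction t with
    | zero => simp [hD0]
    | succ t ih =>
      rw [Finset.sum_range_succ, ih]
      have hc : (t + 1).choose 2 = t.choose 2 + t := by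
        have h7 := Nat.choose_succ_succ' t 1
        simp only [Nat.reduceAdd, Nat.choose_one_right] at h7
        omega
      rw [hc]
      simp only [e]
      push_cast
      ring
  have h0 : 0 ≤ e 0 := by
    have := Dm_succ_le (S0 := ⊥) hμ 0
    simp only [e, Nat.cast_zero]
    rw [zero_add] at this ⊢
    omega
  have h1 : ∀ t, t < R → e t ≤ e (t + 1) := by
    intro t ht
    have := growth_one hμ hs hne hspec (hH t ht)
    simp only [e]
    have e4 : t + 1 + 1 = t + 2 := rfl
    rw [e4]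
    push_cast
    omega
  have h2 : ∀ t, t + 1 < R → 1 ≤ e t → e t + 1 ≤ e (t + 1) := by
    intro t ht he
    simp only [e] at he
    have := growth_two hμ hs hne hspec hinj (hH (t + 1) ht) (by omega)
    simp only [e]
    have e4 : t + 1 + 1 = t + 2 := rfl
    rw [e4]
    push_cast
    omega
  rcases seq_growth e hr h0 h1 h2 with h3 | h3
  · left
    rw [hsum r] at h3
    have : (r : ℤ) * finrank ℂ M = ((r * finrank ℂ M : ℕ) : ℤ) := by push_cast; ring
    rw [this] at h3
    omega
  · right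
    rw [hsum R] at h3
    have : (R : ℤ) * finrank ℂ M = ((R * finrank ℂ M : ℕ) : ℤ) := by push_cast; ring
    rw [this] at h3
    omega

end Main

end Pool.Agent.Helper93.TP
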