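import Mathlib
import Pool.Agent.Helper93.TP.Growth
import Pool.Agent.Helper28.TP.Dim
import Pool.Agent.Helper16.TP.PowSpan
import Pool.Agent.Helper42.TP.Irred

/-!
The quartic family: relation between `rk`, `Dm`, `Full`, and the growth theorem for it.
-/

namespace Pool.Agent.Helper93.TP

open MvPolynomial Module

section

variable {σ : Type*} [Fintype σ]

theorem range_mu (d : ℕ) (b : σ → ℂ) : LinearMap.range (mu σ d b) =
    (homogeneousSubmodule σ ℂ 2).map (LinearMap.mulLeft ℂ (lf b ^ (d - 2))) := by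
  unfold mu
  rw [LinearMap.range_comp, Submodule.range_subtype]

theorem Sig_mu_eq_W (d r : ℕ) (ω : ℕ → σ → ℂ) :
    Sig (mu σ d) ⊥ (Finset.range r) ω = W d (fun i : Fin r => ω i) := by
  unfold Sig W
  rw [bot_sup_eq]
  apply le_antisymm
  · refine iSup₂_le (fun i hi => ?_)
    rw [range_mu]
    exact le_iSup (fun i : Fin r => (homogeneousSubmodule σ ℂ 2).map
      (LinearMap.mulLeft ℂ (lf (ω i) ^ (d - 2)))) ⟨i, Finset.mem_range.1 hi⟩
  · refine iSup_le (fun i => ?_)
    rw [← range_mu]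
    exact le_iSup₂_of_le (i : ℕ) (Finset.mem_range.2 i.2) le_rfl

theorem rk_eq_Dm (d r : ℕ) : rk σ d r = Dm (mu σ d) ⊥ r := by
  have e : (Set.range fun B : Fin r → σ → ℂ => finrank ℂ (W d B)) =
      Set.range fun ω : ℕ → σ → ℂ => finrank ℂ (Sig (mu σ d) ⊥ (Finset.range r) ω) := by
    apply Set.Subset.antisymm
    · intro m hm
      rw [Set.mem_range] at hm ⊢
      obtain ⟨B, hB⟩ := hm
      let ω : ℕ → σ → ℂ := fun i => if h : i < r then B ⟨i, h⟩ else 0
      have h1 : (fun i : Fin r => ω i) = B := by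
        funext i
        exact dif_pos i.2
      refine ⟨ω, ?_⟩
      rw [Sig_mu_eq_W, h1]
      exact hB
    · intro m hm
      rw [Set.mem_range] at hm ⊢
      obtain ⟨ω, hω⟩ := hm
      refine ⟨fun i => ω i, ?_⟩
      rw [Sig_mu_eq_W] at hω
      exact hω
  unfold rk Dm
  rw [e]

theorem Sig_mu_le {d : ℕ} (hd : 2 ≤ d) (A : Finset ℕ) (ω : ℕ → σ → ℂ) :
    Sig (mu σ d) ⊥ A ω ≤ homogeneousSubmodule σ ℂ d := by
  unfold Sig
  rw [bot_sup_eq]
  refine iSup₂_le (fun i _ => ?_)
  rw [range_mu, Submodule.map_le_iff_le_comap]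
  intro q hq
  rw [Submodule.mem_comap, LinearMap.mulLeft_apply, mem_homogeneousSubmodule]
  rw [mem_homogeneousSubmodule] at hq
  have h1 := ((lf_isHomogeneous (ω i)).pow (d - 2)).mul hq
  rw [one_mul, Nat.sub_add_cancel hd] at h1
  exact h1

/-- If it is possible to span everything then this happens generically. -/
theorem gen_top_of_eq {t : ℕ} {V M T : Type*} [AddCommGroup V] [Module ℂ V] [AddCommGroup M]
    [Module ℂ M] [AddCommGroup T] [Module ℂ T] [FiniteDimensional ℂ M]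
    {μ : V → M →ₗ[ℂ] T} {S0 : Submodule ℂ T} [FiniteDimensional ℂ S0]
    (hμ : ∀ m, PolyMap (fun a => μ a m)) {H : Submodule ℂ T} [FiniteDimensional ℂ H]
    (hle : ∀ ω : ℕ → V, Sig μ S0 (Finset.range t) ω ≤ H)
    (hD : finrank ℂ H ≤ Dm μ S0 t) :
    Gen (fun ω : ℕ → V => H ≤ Sig μ S0 (Finset.range t) ω) := by
  have h := gen_finrank_Sig (S0 := S0) hμ (Finset.range t)
  rw [Finset.card_range] at h
  refine h.mono ?_
  intro ω hω
  have := Submodule.eq_of_le_of_finrank_le (hle ω) (by rw [hω]; exact hD)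
  rw [this]

variable (σ)

theorem gen_full_of_full {r : ℕ} (h : Full σ r) :
    Gen (fun ω : ℕ → σ → ℂ => homogeneousSubmodule σ ℂ 4 ≤
      Sig (mu σ 4) ⊥ (Finset.range r) ω) := by
  have := finiteDimensional_homog σ 2
  have := finiteDimensional_homog σ 4
  obtain ⟨B, hB⟩ := h
  apply gen_top_of_eq (polyMap_mu σ 4)
  · intro ω
    exact Sig_mu_le (by norm_num) _ _
  · have h1 := finrank_Sig_le_Dm (mu σ 4) ⊥ (Finset.range r)
      (fun i => if h : i < r then B ⟨i, h⟩ else 0)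
    rw [Finset.card_range] at h1
    refine le_trans ?_ h1
    apply Submodule.finrank_mono
    rw [Sig_mu_eq_W]
    have : (fun i : Fin r => if h : (i : ℕ) < r then B ⟨i, h⟩ else 0) = B := by
      funext i
      rw [dif_pos i.2]
    rw [this]
    exact hB

theorem full_iff_Dm (r : ℕ) :
    Full σ r ↔ Dm (mu σ 4) ⊥ r = finrank ℂ (homogeneousSubmodule σ ℂ 4) := by
  have := finiteDimensional_homog σ 2
  have := finiteDimensional_homog σ 4
  constructor
  · intro h
    have h1 := gen_full_of_full σ h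
    have h2 := gen_finrank_Sig (S0 := ⊥) (polyMap_mu σ 4) (Finset.range r)
    rw [Finset.card_range] at h2
    obtain ⟨ω, h3, h4⟩ := (h1.and h2).exists
    have h5 := le_antisymm (Sig_mu_le (by norm_num) _ _) h3
    rw [h5] at h4
    exact h4.symm
  · intro h
    obtain ⟨ω, hω⟩ := (gen_top_of_eq (polyMap_mu σ 4) (t := r)
      (fun ω => Sig_mu_le (by norm_num) _ _) h.symm.le).exists
    rw [Sig_mu_eq_W] at hω
    exact ⟨_, hω⟩

theorem noFix_of_not_full {t : ℕ} (h : ¬ Full σ t) : NoFix (mu σ 4) t := by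
  have := finiteDimensional_homog σ 2
  have := finiteDimensional_homog σ 4
  intro F hF hG
  apply h
  have hF4 : F ∈ homogeneousSubmodule σ ℂ 4 := by
    obtain ⟨ω, hω⟩ := hG.exists
    exact Sig_mu_le (by norm_num) _ _ hω
  have h1 := gen_full_of_gen_mem σ (by norm_num) (span_lf_pow σ 4) t hF4 hF hG
  have h2 : Gen (fun ω : ℕ → σ → ℂ => ∀ i, ((finBasis ℂ (homogeneousSubmodule σ ℂ 4) i :
      homogeneousSubmodule σ ℂ 4) : MvPolynomial σ ℂ) ∈ Sig (mu σ 4) ⊥ (Finset.range t) ω) := by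
    apply Gen.forall_fintype
    intro i
    exact h1 _ (Submodule.coe_mem _)
  obtain ⟨ω, hω⟩ := h2.exists
  refine ⟨fun i => ω i, ?_⟩
  rw [← Sig_mu_eq_W]
  intro G hG'
  have h3 := (finBasis ℂ (homogeneousSubmodule σ ℂ 4)).sum_repr ⟨G, hG'⟩
  have h4 := congrArg (Submodule.subtype _) h3
  rw [map_sum] at h4
  simp only [map_smul, Submodule.subtype_apply] at h4
  rw [← h4]
  exact Submodule.sum_mem _ (fun i _ => Submodule.smul_mem _ _ (hω i))

variable {σ}

omit [Fintype σ] in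
theorem X_mul_X_mem_two (i j : σ) : (X i * X j : MvPolynomial σ ℂ) ∈
    homogeneousSubmodule σ ℂ 2 := by
  rw [mem_homogeneousSubmodule]
  exact (isHomogeneous_X ℂ i).mul (isHomogeneous_X ℂ j)

/-- The square of a linear form as an element of the space of quadratic forms. -/
noncomputable def sq (a : σ → ℂ) : homogeneousSubmodule σ ℂ 2 :=
  ∑ p : σ × σ, (a p.1 * a p.2) • ⟨X p.1 * X p.2, X_mul_X_mem_two p.1 p.2⟩

theorem sq_coe (a : σ → ℂ) : ((sq a : homogeneousSubmodule σ ℂ 2) : MvPolynomial σ ℂ) =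
    lf a ^ 2 := by
  unfold sq lf
  rw [← Submodule.subtype_apply, map_sum, pow_two, Finset.sum_mul_sum, Fintype.sum_prod_type]
  refine Finset.sum_congr rfl (fun i _ => Finset.sum_congr rfl (fun j _ => ?_))
  rw [map_smul, Submodule.subtype_apply, smul_mul_smul_comm]

theorem polyMap_sq : PolyMap (fun a : σ → ℂ => sq a) := by
  refine PolyMap.of_fintype (ι := σ × σ) (φ := fun p a => a p.1 * a p.2)
    (t := fun p => ⟨X p.1 * X p.2, X_mul_X_mem_two p.1 p.2⟩) ?_ (fun a => by rw [sq])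
  intro p
  exact PolyFun.mul (PolyFun.linear (LinearMap.proj (R := ℂ) (φ := fun _ : σ => ℂ) p.1))
    (PolyFun.linear (LinearMap.proj (R := ℂ) (φ := fun _ : σ => ℂ) p.2))

theorem mu_apply (d : ℕ) (b : σ → ℂ) (q : homogeneousSubmodule σ ℂ 2) :
    mu σ d b q = lf b ^ (d - 2) * (q : MvPolynomial σ ℂ) := rfl

theorem lf_ne_zero [DecidableEq σ] {b : σ → ℂ} {i : σ} (hi : b i ≠ 0) : lf b ≠ 0 := by
  intro h
  have h1 : eval (Pi.single i (1 : ℂ)) (lf b) = b i := by
    unfold lf
    rw [map_sum]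
    rw [Finset.sum_eq_single i]
    · rw [smul_eval, eval_X, Pi.single_eq_same, mul_one]
    · intro j _ hj
      rw [smul_eval, eval_X, Pi.single_eq_of_ne hj, mul_zero]
    · intro h
      exact absurd (Finset.mem_univ i) h
  rw [h, map_zero] at h1
  exact hi h1.symm

theorem gen_coord_ne {E : Type*} [AddCommGroup E] [Module ℂ E] (L : E →ₗ[ℂ] ℂ) (hL : L ≠ 0) :
    Gen (fun x => L x ≠ 0) := by
  refine ⟨fun x => L x, PolyFun.linear L, ?_, fun x hx => hx⟩
  intro h
  apply hL
  ext x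
  exact congrFun h x

/-- The growth theorem for quartics. -/
theorem quartic_growth [DecidableEq σ] (i0 : σ) {R r : ℕ} (hr : r ≤ R)
    (hH : ∀ t, t < R → ¬ Full σ t) :
    (Dm (mu σ 4) ⊥ r + r.choose 2 = r * finrank ℂ (homogeneousSubmodule σ ℂ 2)) ∨
      (Dm (mu σ 4) ⊥ R + R.choose 2 + (R - r + 2).choose 2 ≤
        R * finrank ℂ (homogeneousSubmodule σ ℂ 2)) := by
  have := finiteDimensional_homog σ 2
  refine growth (polyMap_mu σ 4) (s := sq) polyMap_sq ?_ ?_ ?_ hr
    (fun t ht => noFix_of_not_full σ (hH t ht))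
  · intro j a hja
    have g : ∀ j : ℕ, Gen (fun ω : ℕ → σ → ℂ => ω j i0 ≠ 0) := by
      intro j
      apply gen_coord_ne ((LinearMap.proj (R := ℂ) (φ := fun _ : σ => ℂ) i0) ∘ₗ
        (LinearMap.proj (R := ℂ) (φ := fun _ : ℕ => (σ → ℂ)) j))
      intro h
      have := LinearMap.congr_fun h (fun _ _ => 1)
      simp at this
    refine ((g j).and (g a)).mono ?_
    rintro ω ⟨h1, h2⟩
    rw [mu_apply, sq_coe]
    exact mul_ne_zero (pow_ne_zero _ (lf_ne_zero h1)) (pow_ne_zero _ (lf_ne_zero h2))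
  · intro a b
    refine ⟨sq b, ?_⟩
    rw [mu_apply, mu_apply, sq_coe, sq_coe]
    exact mul_comm _ _
  · have g : Gen (fun b : σ → ℂ => b i0 ≠ 0) := by
      apply gen_coord_ne (LinearMap.proj (R := ℂ) (φ := fun _ : σ => ℂ) i0)
      intro h
      have := LinearMap.congr_fun h (fun _ => 1)
      simp at this
    refine g.mono ?_
    intro b hb p q hpq
    rw [mu_apply, mu_apply] at hpq
    have := mul_left_cancel₀ (pow_ne_zero _ (lf_ne_zero hb)) hpq
    exact Subtype.ext this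

end

end Pool.Agent.Helper93.TP
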