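import Mathlib
import Pool.Agent.Helper21.TP.Struct

/-!
A sharper form of the structure theorem for the canonical subspaces.
-/

namespace Pool.Agent.Helper93.TP

open MvPolynomial Module

section

open Struct

variable {σ : Type*} [Fintype σ] [DecidableEq σ] {K : ℕ} (cl : σ → Fin (K + 1))

theorem finrank_quot_three (S : Submodule ℂ (Fin 3 → ℂ)) :
    finrank ℂ ((Fin 3 → ℂ) ⧸ S) = 3 - finrank ℂ S := by
  have h := Submodule.finrank_quotient_add_finrank S
  have h3 : finrank ℂ (Fin 3 → ℂ) = 3 := by simp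
  omega

theorem finrank_Can_le' (nn : Fin (K + 1) → Fin 3 → ℂ) (t : ℕ) {b : σ → ℂ}
    (hb : ∀ i, b i ≠ 0) :
    finrank ℂ (Can nu (P0 cl nn) t b) ≤
      (∑ i, finrank ℂ (Th cl nn t (cl i) b)) + ∑ c, (3 - finrank ℂ (Th cl nn t c b)) := by
  set C := Can nu (P0 cl nn) t b with hC
  let Q : (Fin (K + 1) → Fin 3 → ℂ) →ₗ[ℂ] (∀ c : Fin (K + 1), (Fin 3 → ℂ) ⧸ Th cl nn t c b) :=
    LinearMap.pi (fun c => (Submodule.mkQ (Th cl nn t c b)) ∘ₗ
      (LinearMap.proj (R := ℂ) (φ := fun _ : Fin (K + 1) => (Fin 3 → ℂ)) c))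
  let g : C →ₗ[ℂ] (∀ c : Fin (K + 1), (Fin 3 → ℂ) ⧸ Th cl nn t c b) :=
    Q ∘ₗ (repL cl) ∘ₗ C.subtype
  have h1 := LinearMap.finrank_range_add_finrank_ker g
  have h2 : finrank ℂ (LinearMap.range g) ≤ ∑ c, (3 - finrank ℂ (Th cl nn t c b)) := by
    refine (Submodule.finrank_le _).trans ?_
    rw [Module.finrank_pi_fintype]
    exact Finset.sum_le_sum (fun c _ => (finrank_quot_three _).le)
  have hmem : ∀ x : LinearMap.ker g, ∀ i, ((x : C) : σ → Fin 3 → ℂ) i ∈ Th cl nn t (cl i) b := by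
    intro x i
    have hex : ∃ j, cl j = cl i := ⟨i, rfl⟩
    have hx : repL cl ((x : C) : σ → Fin 3 → ℂ) (cl i) ∈ Th cl nn t (cl i) b := by
      have h5 := x.2
      rw [LinearMap.mem_ker] at h5
      have h6 := congrFun h5 (cl i)
      exact (Submodule.Quotient.mk_eq_zero _).1 h6
    rw [repL_apply cl _ _ hex] at hx
    have h3 := diff_mem_Th cl nn t (x : C).2 (i := i) (j := hex.choose) hex.choose_spec.symm
    have h4 : b hex.choose • ((x : C) : σ → Fin 3 → ℂ) i ∈ Th cl nn t (cl i) b := by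
      have h5 := Submodule.add_mem _ h3 (Submodule.smul_mem _ (b i) hx)
      simpa using h5
    have h6 := Submodule.smul_mem _ (b hex.choose)⁻¹ h4
    rw [smul_smul, inv_mul_cancel₀ (hb _), one_smul] at h6
    exact h6
  let f : LinearMap.ker g →ₗ[ℂ] (∀ i, Th cl nn t (cl i) b) :=
    { toFun := fun x i => ⟨((x : C) : σ → Fin 3 → ℂ) i, hmem x i⟩
      map_add' := by
        intro x y
        funext i
        rfl
      map_smul' := by
        intro s x
        funext i
        rfl }
  have hf : Function.Injective f := by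
    intro x y hxy
    apply Subtype.ext
    apply Subtype.ext
    funext i
    have := congrFun hxy i
    exact congrArg Subtype.val this
  have h3 := LinearMap.finrank_le_finrank_of_injective hf
  rw [Module.finrank_pi_fintype] at h3
  omega

end

open Struct in
theorem can_struct' {σ : Type*} [Fintype σ] [DecidableEq σ] {K : ℕ} (cl : σ → Fin (K + 1))
    (nn : Fin (K + 1) → Fin 3 → ℂ) (t : ℕ)
    (hpoly : ∀ ξ : σ → Fin 3 → ℂ, PolyMap (fun b : σ → ℂ => nu b ξ))
    (hsp : Submodule.span ℂ (Set.range fun b : σ → ℂ => lf b ^ 2) =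
      homogeneousSubmodule σ ℂ 2) :
    ∃ Θ : Fin (K + 1) → Submodule ℂ (Fin 3 → ℂ), (∀ c, nn c ∈ Θ c) ∧
      Gen (fun b : σ → ℂ => finrank ℂ (Can nu (P0 cl nn) t b) ≤
        (∑ i, finrank ℂ (Θ (cl i))) + ∑ c, (3 - finrank ℂ (Θ c))) ∧
      Gen (fun ω : ℕ → σ → ℂ => ZT cl Θ ≤ Sig nu (P0 cl nn) (Finset.range t) ω) := by
  refine ⟨fun c => Th cl nn t c (fun _ => 1), fun c => nn_mem_Th cl nn t c _, ?_, ?_⟩
  · refine gen_coords.mono (fun b hb => ?_)
    have he : ∀ c, Th cl nn t c b = Th cl nn t c (fun _ => 1) := fun c =>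
      le_antisymm (Th_le cl nn t c hb (fun _ => one_ne_zero))
        (Th_le cl nn t c (fun _ => one_ne_zero) hb)
    have he' : ∀ c, finrank ℂ (Th cl nn t c b) = finrank ℂ (Th cl nn t c (fun _ => 1)) := by
      intro c
      rw [he c]
    have h := finrank_Can_le' cl nn t hb
    simp only [he'] at h
    exact h
  · have hZ := ZT_le_Zs cl nn t hpoly hsp
    have hT : ZT cl (fun c => Th cl nn t c (fun _ => 1)) ≤ T3 σ := by
      unfold ZT
      rw [Submodule.span_le]
      rintro _ ⟨i, q, η, hq, hη, rfl⟩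
      rw [SetLike.mem_coe, T3, Submodule.mem_pi]
      intro y _
      refine Submodule.smul_mem _ _ ?_
      rw [mem_homogeneousSubmodule] at hq ⊢
      have := (isHomogeneous_X ℂ i).mul hq
      simpa [add_comm] using this
    have hfd : FiniteDimensional ℂ (T3 σ) := finite_T3
    have hfg : (ZT cl (fun c => Th cl nn t c (fun _ => 1))).FG := by
      have h1 : FiniteDimensional ℂ (ZT cl (fun c => Th cl nn t c (fun _ => 1))) :=
        Submodule.finiteDimensional_of_le hT
      exact (Submodule.fg_iff_finiteDimensional _).mpr h1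
    obtain ⟨S, hS⟩ := hfg
    have h2 : Gen (fun ω : ℕ → σ → ℂ => ∀ f ∈ S,
        f ∈ Sig nu (P0 cl nn) (Finset.range t) ω) := by
      refine Gen.forall_finset S (fun f hf => ?_)
      have : f ∈ ZT cl (fun c => Th cl nn t c (fun _ => 1)) := by
        rw [← hS]
        exact Submodule.subset_span hf
      exact hZ this
    refine h2.mono (fun ω hω => ?_)
    rw [← hS, Submodule.span_le]
    exact hω

end Pool.Agent.Helper93.TP
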