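import Mathlib
import Pool.Agent.Helper93.TP.Rank
import Pool.Agent.Helper20.TP.ZDim
import Pool.Agent.Helper93.TP.Struct2
import Pool.Agent.Helper68.TP.FullBasic
import Pool.Agent.Helper70.TP.Ineq

/-!
The vector valued cubic part is filled by `r` generic points as soon as `r` is a little larger
than `R x ^ 2 / 6`.
-/

namespace Pool.Agent.Helper93.TP

open MvPolynomial Module

section Abstract

variable {V M T : Type*} [AddCommGroup V] [Module ℂ V] [AddCommGroup M] [Module ℂ M]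
  [AddCommGroup T] [Module ℂ T]

/-- Pigeonhole: among `dim M + 1` consecutive steps there is one with equal gains. -/
theorem exists_equal_step {μ : V → M →ₗ[ℂ] T} {S0 : Submodule ℂ T} [FiniteDimensional ℂ M]
    [FiniteDimensional ℂ S0] (hμ : ∀ m, PolyMap (fun a => μ a m)) (t0 : ℕ) :
    ∃ s, t0 ≤ s ∧ s ≤ t0 + finrank ℂ M ∧
      Dm μ S0 (s + 2) + Dm μ S0 s = 2 * Dm μ S0 (s + 1) := by
  by_contra hcon
  push Not at hcon
  have key : ∀ j, j ≤ finrank ℂ M + 1 →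
      Dm μ S0 (t0 + j + 1) + j + Dm μ S0 t0 ≤ Dm μ S0 (t0 + j) + Dm μ S0 (t0 + 1) := by
    intro j
    induction j with
    | zero =>
      intro _
      simp only [add_zero]
      omega
    | succ j ih =>
      intro hj
      have ih' := ih (by omega)
      have h1 := hcon (t0 + j) (by omega) (by omega)
      have h2 := Dm_concave (S0 := S0) hμ (t0 + j)
      have e1 : t0 + (j + 1) + 1 = t0 + j + 2 := by ring
      have e2 : t0 + (j + 1) = t0 + j + 1 := by ring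
      rw [e1, e2]
      omega
  have h3 := key (finrank ℂ M + 1) le_rfl
  have h4 := Dm_succ_le (S0 := S0) hμ t0
  have h5 := Dm_le_succ (S0 := S0) hμ (t0 + (finrank ℂ M + 1))
  omega

end Abstract

section Sums

variable {σ : Type*} [Fintype σ] {K : ℕ} (cl : σ → Fin (K + 1)) {x : ℝ} {w : Fin (K + 1) → ℝ}
  (hw : ∀ c, (((Finset.univ.filter (fun i => cl i = c)).card : ℕ) : ℝ) = x * w c)
include hw

theorem sum_class (g : Fin (K + 1) → ℝ) : ∑ i, g (cl i) = ∑ c, x * w c * g c := by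
  rw [← Finset.sum_fiberwise' Finset.univ cl g]
  refine Finset.sum_congr rfl (fun c _ => ?_)
  rw [Finset.sum_const, nsmul_eq_mul, hw]

theorem sum_class3 (g : Fin (K + 1) → Fin (K + 1) → Fin (K + 1) → ℝ) :
    ∑ i, ∑ j, ∑ k, g (cl i) (cl j) (cl k) =
      x ^ 3 * ∑ a, ∑ b, ∑ c, w a * w b * w c * g a b c := by
  have h1 : ∀ i j, ∑ k, g (cl i) (cl j) (cl k) = ∑ c, x * w c * g (cl i) (cl j) c := by
    intro i j
    exact sum_class cl hw (fun c => g (cl i) (cl j) c)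
  have h2 : ∀ i, ∑ j, ∑ k, g (cl i) (cl j) (cl k) =
      ∑ b, x * w b * ∑ c, x * w c * g (cl i) b c := by
    intro i
    rw [← sum_class cl hw (fun b => ∑ c, x * w c * g (cl i) b c)]
    exact Finset.sum_congr rfl (fun j _ => h1 i j)
  have h3 : ∑ i, ∑ j, ∑ k, g (cl i) (cl j) (cl k) =
      ∑ a, x * w a * ∑ b, x * w b * ∑ c, x * w c * g a b c := by
    rw [← sum_class cl hw (fun a => ∑ b, x * w b * ∑ c, x * w c * g a b c)]
    exact Finset.sum_congr rfl (fun i _ => h2 i)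
  rw [h3, Finset.mul_sum]
  refine Finset.sum_congr rfl (fun a _ => ?_)
  rw [Finset.mul_sum, Finset.mul_sum]
  refine Finset.sum_congr rfl (fun b _ => ?_)
  rw [Finset.mul_sum, Finset.mul_sum, Finset.mul_sum]
  refine Finset.sum_congr rfl (fun c _ => ?_)
  ring

end Sums

section TProp

variable {σ : Type*} [Fintype σ] [DecidableEq σ] {K : ℕ}

omit [DecidableEq σ] in
theorem P0_le_T3 (cl : σ → Fin (K + 1)) (nn : Fin (K + 1) → Fin 3 → ℂ) : P0 cl nn ≤ T3 σ :=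
  (P0_le_ZT cl nn (fun _ => ⊤) (fun _ => trivial)).trans (ZT_le_T3 cl _)

theorem Sig_nu_le (cl : σ → Fin (K + 1)) (nn : Fin (K + 1) → Fin 3 → ℂ) (A : Finset ℕ)
    (ω : ℕ → σ → ℂ) : Sig nu (P0 cl nn) A ω ≤ T3 σ := by
  unfold Sig
  exact sup_le (P0_le_T3 cl nn) (iSup₂_le (fun i _ => range_nu_le_T3 _))

omit [DecidableEq σ] in
theorem finrank_vec : finrank ℂ (σ → Fin 3 → ℂ) = 3 * Fintype.card σ := by
  rw [Module.finrank_pi_fintype]
  simp [mul_comm]

/-- The cubic part is filled. -/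
theorem tprop (cl : σ → Fin (K + 1)) {nn : Fin (K + 1) → Fin 3 → ℂ} (hgood : GoodDir nn)
    {m r : ℕ} (hcl : ∀ c, c ≠ 0 → (Finset.univ.filter (fun i => cl i = c)).card = m)
    (hcl0 : m ≤ (Finset.univ.filter (fun i => cl i = 0)).card)
    {f0 φ R : ℝ} (hφ0 : 0 ≤ φ) (hsum : f0 + K * φ = 1)
    (hφ : (m : ℝ) = Fintype.card σ * φ)
    (hf0 : (((Finset.univ.filter (fun i => cl i = 0)).card : ℕ) : ℝ) = Fintype.card σ * f0)
    (h0 : 43 / 100 ≤ f0) (h1 : f0 ≤ 46 / 100) (hR : 3 * f0 / (2 + f0) + 20 * φ ≤ R)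
    (hm : 0 < m) (hr : 3 * Fintype.card σ ≤ r)
    (hbig : (R / 6 * (Fintype.card σ : ℝ) ^ 2 + Fintype.card σ) * m <
      ((r : ℝ) - 3 * Fintype.card σ) * (m - 1)) :
    Gen (fun ω : ℕ → σ → ℂ => T3 σ ≤ Sig nu (P0 cl nn) (Finset.range r) ω) := by
  classical
  have hfdT : FiniteDimensional ℂ (T3 σ) := finiteDimensional_T3 σ
  have hfdP : FiniteDimensional ℂ (P0 cl nn) :=
    Submodule.finiteDimensional_of_le (P0_le_T3 cl nn)
  set x : ℕ := Fintype.card σ with hx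
  have hM : finrank ℂ (σ → Fin 3 → ℂ) = 3 * x := finrank_vec
  obtain ⟨s, hs1, hs2, hstep⟩ := exists_equal_step (S0 := P0 cl nn)
    (fun ξ : σ → Fin 3 → ℂ => polyMap_nu ξ) (r - 3 * x)
  rw [hM] at hs2
  have hsr : s ≤ r := by omega
  obtain ⟨Θ, hΘ, hCan, hZT⟩ := can_struct' cl nn s polyMap_nu (span_lf_pow σ 2)
  have hfdZ : FiniteDimensional ℂ (ZT cl Θ) :=
    Submodule.finiteDimensional_of_le (ZT_le_T3 cl Θ)
  have hC := gen_finrank_Can (S0 := P0 cl nn) (fun ξ : σ → Fin 3 → ℂ => polyMap_nu ξ) hstep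
  have hcont := Dm_ge_of_contained (S0 := P0 cl nn) (fun ξ : σ → Fin 3 → ℂ => polyMap_nu ξ)
    (ZT cl Θ) hZT
  have hDle : Dm nu (P0 cl nn) s ≤ finrank ℂ (T3 σ) := by
    apply Dm_le_of_forall
    intro ω
    exact Submodule.finrank_mono (Sig_nu_le cl nn _ ω)
  have hZ := finrank_ZT_ge cl Θ
  rw [← hx] at hZ
  have hΘ3 : ∀ c, finrank ℂ (Θ c) ≤ 3 := by
    intro c
    have := Submodule.finrank_le (Θ c)
    simpa using this
  have hS3 : ∀ a b c, finrank ℂ (Θ a ⊔ Θ b ⊔ Θ c : Submodule ℂ (Fin 3 → ℂ)) ≤ 3 := by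
    intro a b c
    have := Submodule.finrank_le (Θ a ⊔ Θ b ⊔ Θ c : Submodule ℂ (Fin 3 → ℂ))
    simpa using this
  set D : ℕ := ∑ i, (3 - finrank ℂ (Θ (cl i))) with hD
  have hDsum : D + ∑ i, finrank ℂ (Θ (cl i)) = 3 * x := by
    rw [hD, ← Finset.sum_add_distrib]
    have : ∀ i : σ, 3 - finrank ℂ (Θ (cl i)) + finrank ℂ (Θ (cl i)) = 3 := by
      intro i
      have := hΘ3 (cl i)
      omega
    rw [Finset.sum_congr rfl (fun i _ => this i)]
    simp [hx, mul_comm]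
  obtain ⟨b, hb1, hb2⟩ := (hCan.and hC).exists
  rw [hM] at hb2
  set γ : ℕ := Dm nu (P0 cl nn) (s + 1) - Dm nu (P0 cl nn) s with hγ
  set L : ℕ := ∑ c, (3 - finrank ℂ (Θ c)) with hL
  have hγD : D ≤ γ + L := by omega
  have hmL : m * L ≤ D := by
    rw [hL, hD, ← Finset.sum_fiberwise' Finset.univ cl (fun c => 3 - finrank ℂ (Θ c)),
      Finset.mul_sum]
    refine Finset.sum_le_sum (fun c _ => ?_)
    rw [Finset.sum_const, smul_eq_mul]
    apply Nat.mul_le_mul_right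
    by_cases hc : c = 0
    · rw [hc]
      exact hcl0
    · rw [hcl c hc]
  have hsγ : finrank ℂ (ZT cl Θ) + s * γ ≤ finrank ℂ (T3 σ) := hcont.trans hDle
  set Q : ℕ := ∑ i, ∑ j, ∑ k,
    (3 - finrank ℂ (Θ (cl i) ⊔ Θ (cl j) ⊔ Θ (cl k) : Submodule ℂ (Fin 3 → ℂ))) with hQ
  -- the main inequality
  have hwcl : ∀ c, (((Finset.univ.filter (fun i => cl i = c)).card : ℕ) : ℝ) =
      (x : ℝ) * (if c = 0 then f0 else φ) := by
    intro c
    by_cases hc : c = 0
    · rw [if_pos hc, hc]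
      exact hf0
    · rw [if_neg hc, hcl c hc]
      exact hφ
  have hDr : (D : ℝ) = x * ∑ a, (if a = 0 then f0 else φ) * (3 - (finrank ℂ (Θ a) : ℝ)) := by
    rw [hD, Nat.cast_sum]
    have e1 : ∀ i : σ, ((3 - finrank ℂ (Θ (cl i)) : ℕ) : ℝ) = 3 - (finrank ℂ (Θ (cl i)) : ℝ) := by
      intro i
      rw [Nat.cast_sub (hΘ3 _)]
      norm_num
    rw [Finset.sum_congr rfl (fun i _ => e1 i),
      sum_class cl hwcl (fun c => 3 - (finrank ℂ (Θ c) : ℝ)), Finset.mul_sum]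
    refine Finset.sum_congr rfl (fun a _ => ?_)
    ring
  have hQr : (Q : ℝ) = (x : ℝ) ^ 3 * ∑ a, ∑ b, ∑ c, (if a = 0 then f0 else φ) *
      (if b = 0 then f0 else φ) * (if c = 0 then f0 else φ) *
      (3 - (finrank ℂ (Θ a ⊔ Θ b ⊔ Θ c : Submodule ℂ (Fin 3 → ℂ)) : ℝ)) := by
    rw [← sum_class3 cl hwcl
      (fun a b c => 3 - (finrank ℂ (Θ a ⊔ Θ b ⊔ Θ c : Submodule ℂ (Fin 3 → ℂ)) : ℝ)), hQ,
      Nat.cast_sum]
    refine Finset.sum_congr rfl (fun i _ => ?_)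
    rw [Nat.cast_sum]
    refine Finset.sum_congr rfl (fun j _ => ?_)
    rw [Nat.cast_sum]
    refine Finset.sum_congr rfl (fun k _ => ?_)
    rw [Nat.cast_sub (hS3 _ _ _)]
    norm_num
  have hineq := class_ineq hgood Θ hΘ h0 h1 hφ0 hsum hR (fun c => if c = 0 then f0 else φ)
    (fun c => rfl)
  have hx0 : (0 : ℝ) ≤ x := Nat.cast_nonneg x
  have hQD : (Q : ℝ) ≤ R * (x : ℝ) ^ 2 * D := by
    rw [hQr, hDr]
    calc _ ≤ (x : ℝ) ^ 3 * (R * ∑ a, (if a = 0 then f0 else φ) *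
        (3 - (finrank ℂ (Θ a) : ℝ))) := mul_le_mul_of_nonneg_left hineq (by positivity)
      _ = _ := by ring
  by_cases hD0 : D = 0
  · -- everything is filled
    have hQ0 : Q = 0 := by
      have : (Q : ℝ) ≤ 0 := by
        rw [hD0] at hQD
        simpa using hQD
      exact_mod_cast le_antisymm this (Nat.cast_nonneg _)
    rw [hD0, hQ0] at hZ
    have hZT3 : ZT cl Θ = T3 σ := Submodule.eq_of_le_of_finrank_le (ZT_le_T3 cl Θ) (by omega)
    refine hZT.mono ?_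
    intro ω hω
    rw [hZT3] at hω
    exact hω.trans (Sig_mono nu (P0 cl nn) (Finset.range_mono hsr) ω)
  · exfalso
    have hDpos : (0 : ℝ) < D := by
      have : 0 < D := Nat.pos_of_ne_zero hD0
      exact_mod_cast this
    have hmpos : (0 : ℝ) < m := by exact_mod_cast hm
    have hs3 : (r : ℝ) - 3 * x ≤ s := by
      have : r ≤ s + 3 * x := by omega
      have : (r : ℝ) ≤ s + 3 * x := by exact_mod_cast this
      linarith
    have hr0 : (0 : ℝ) ≤ (r : ℝ) - 3 * x := by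
      have : ((3 * x : ℕ) : ℝ) ≤ r := by exact_mod_cast hr
      push_cast at this
      linarith
    have hγr : (m - 1) * (D : ℝ) ≤ m * γ := by
      have h7 : (D : ℝ) ≤ γ + L := by exact_mod_cast hγD
      have h8 : (m : ℝ) * L ≤ D := by exact_mod_cast hmL
      nlinarith
    have h6 : 6 * ((s : ℝ) * γ) ≤ R * (x : ℝ) ^ 2 * D + 6 * x * D := by
      have h7 : 6 * (s * γ) ≤ Q + 6 * x * D := by omega
      have h8 : (6 * ((s : ℝ) * γ)) ≤ Q + 6 * x * D := by exact_mod_cast h7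
      linarith
    have h9 : ((r : ℝ) - 3 * x) * ((m - 1) * D) ≤ s * (m * γ) := by
      apply mul_le_mul hs3 hγr
      · have : (1 : ℝ) ≤ m := by exact_mod_cast hm
        apply mul_nonneg (by linarith) hDpos.le
      · exact Nat.cast_nonneg _
    have h10 : (s : ℝ) * (m * γ) ≤ (R / 6 * (x : ℝ) ^ 2 + x) * D * m := by
      have : (s : ℝ) * γ * m ≤ (R / 6 * (x : ℝ) ^ 2 + x) * D * m := by
        apply mul_le_mul_of_nonneg_right _ hmpos.le
        linarith
      linarith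
    have h13 : (R / 6 * (x : ℝ) ^ 2 + x) * m * D <
        ((r : ℝ) - 3 * x) * (m - 1) * D := mul_lt_mul_of_pos_right hbig hDpos
    linarith [h9, h10, h13]

end TProp

end Pool.Agent.Helper93.TP
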