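import Mathlib
import Pool.Agent.Helper93.TP.TProp
import Pool.Agent.Helper22.TP.Horace

/-!
The induction: `r` general triple points impose all conditions on quartics in `v` variables as
soon as `r` is at least `ρ v ^ 2 + C`.
-/

namespace Pool.Agent.Helper93.TP

open MvPolynomial Module

section Step

/-- The class function. -/
def clsF (m K y : ℕ) : (Fin m × Fin K) ⊕ Fin y → Fin (K + 1) :=
  Sum.elim (fun p => p.2.succ) (fun _ => 0)

theorem clsF_inl (m K y : ℕ) (p : Fin m × Fin K) : clsF m K y (Sum.inl p) = p.2.succ := rfl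

theorem clsF_inr (m K y : ℕ) (j : Fin y) : clsF m K y (Sum.inr j) = 0 := rfl

theorem clsF_card_succ (m K y : ℕ) (c : Fin K) :
    (Finset.univ.filter (fun i => clsF m K y i = c.succ)).card = m := by
  rw [Finset.card_filter, Fintype.sum_sum_type]
  have h1 : ∀ p : Fin m × Fin K, (if clsF m K y (Sum.inl p) = c.succ then 1 else 0) =
      (if p.2 = c then 1 else 0 : ℕ) := by
    intro p
    rw [clsF_inl]
    by_cases h : p.2 = c
    · rw [if_pos h, if_pos (by rw [h])]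
    · rw [if_neg h, if_neg (fun h' => h (Fin.succ_injective _ h'))]
  have h2 : ∀ j : Fin y, (if clsF m K y (Sum.inr j) = c.succ then 1 else 0) = (0 : ℕ) := by
    intro j
    rw [clsF_inr, if_neg (Fin.succ_ne_zero c).symm]
  rw [Finset.sum_congr rfl (fun i _ => h1 i), Finset.sum_congr rfl (fun i _ => h2 i),
    Fintype.sum_prod_type]
  simp

theorem clsF_card_zero (m K y : ℕ) :
    (Finset.univ.filter (fun i => clsF m K y i = 0)).card = y := by
  rw [Finset.card_filter, Fintype.sum_sum_type]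
  have h1 : ∀ p : Fin m × Fin K, (if clsF m K y (Sum.inl p) = 0 then 1 else 0) = (0 : ℕ) := by
    intro p
    rw [clsF_inl, if_neg (Fin.succ_ne_zero _)]
  have h2 : ∀ j : Fin y, (if clsF m K y (Sum.inr j) = 0 then 1 else 0) = (1 : ℕ) := by
    intro j
    rw [clsF_inr, if_pos rfl]
  rw [Finset.sum_congr rfl (fun i _ => h1 i), Finset.sum_congr rfl (fun i _ => h2 i)]
  simp

theorem clsF_card_ne (m K y : ℕ) :
    (Finset.univ.filter (fun i => clsF m K y i ≠ 0)).card = m * K := by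
  rw [Finset.card_filter, Fintype.sum_sum_type]
  have h1 : ∀ p : Fin m × Fin K, (if clsF m K y (Sum.inl p) ≠ 0 then 1 else 0) = (1 : ℕ) := by
    intro p
    rw [clsF_inl, if_pos (Fin.succ_ne_zero _)]
  have h2 : ∀ j : Fin y, (if clsF m K y (Sum.inr j) ≠ 0 then 1 else 0) = (0 : ℕ) := by
    intro j
    rw [clsF_inr, if_neg (fun h => h rfl)]
  rw [Finset.sum_congr rfl (fun i _ => h1 i), Finset.sum_congr rfl (fun i _ => h2 i)]
  simp

theorem full_step {m K y r : ℕ} (hmy : m ≤ y) {x : ℕ} (hx : x = m * K + y)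
    (hx0 : 0 < x) {R : ℝ}
    (h0 : 43 / 100 ≤ (y : ℝ) / x) (h1 : (y : ℝ) / x ≤ 46 / 100)
    (hR : 3 * ((y : ℝ) / x) / (2 + (y : ℝ) / x) + 20 * ((m : ℝ) / x) ≤ R)
    (hm : 0 < m) (hr : 3 * x ≤ r)
    (hbig : (R / 6 * (x : ℝ) ^ 2 + x) * m < ((r : ℝ) - 3 * x) * (m - 1))
    (hfull : Full (Fin x) r) : Full (Fin (x + 3)) (r + m * K + 6) := by
  classical
  obtain ⟨nn, hnn⟩ := exists_goodDir K
  have hcard : Fintype.card ((Fin m × Fin K) ⊕ Fin y) = x := by
    simp [hx]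
  have hxr : (0 : ℝ) < x := by exact_mod_cast hx0
  have hT := tprop (clsF m K y) hnn (m := m) (r := r) (f0 := (y : ℝ) / x) (φ := (m : ℝ) / x)
    (R := R) ?_ ?_ ?_ ?_ ?_ ?_ h0 h1 hR hm ?_ ?_
  · have e : Fin x ≃ (Fin m × Fin K) ⊕ Fin y := (Fintype.equivFinOfCardEq hcard).symm
    have hF := gen_full_of_full ((Fin m × Fin K) ⊕ Fin y) (Full.congr e hfull)
    obtain ⟨ω, h2, h3⟩ := (hF.and hT).exists
    rw [Sig_mu_eq_W] at h2
    have h4 := horace (clsF m K y) nn hnn.1 (fun i : Fin r => ω i) h2 ?_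
    · rw [clsF_card_ne] at h4
      have hcard2 : Fintype.card (((Fin m × Fin K) ⊕ Fin y) ⊕ Fin 3) = x + 3 := by
        rw [Fintype.card_sum, hcard, Fintype.card_fin]
      exact Full.congr (Fintype.equivFinOfCardEq hcard2) h4
    · refine h3.trans ?_
      unfold Sig
      apply sup_le_sup_left
      refine iSup₂_le (fun i hi => ?_)
      exact le_iSup (fun i : Fin r => LinearMap.range (nu (ω i))) ⟨i, Finset.mem_range.1 hi⟩
  · intro c hc
    obtain ⟨c', rfl⟩ := Fin.exists_succ_eq.2 hc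
    exact clsF_card_succ m K y c'
  · rw [clsF_card_zero]
    exact hmy
  · positivity
  · have hx' : (x : ℝ) = m * K + y := by exact_mod_cast hx
    rw [div_add' _ _ _ hxr.ne', div_eq_one_iff_eq hxr.ne']
    field_simp
    linarith
  · rw [hcard]
    field_simp
  · rw [hcard, clsF_card_zero]
    field_simp
  · rw [hcard]
    exact hr
  · rw [hcard]
    exact hbig

end Step

section Numeric

/-- The critical constant. -/
noncomputable def rhoC : ℝ := 1 / 2 - 1 / Real.sqrt 6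

theorem sqrt6_sq : Real.sqrt 6 ^ 2 = 6 := Real.sq_sqrt (by norm_num)

theorem sqrt6_pos : 0 < Real.sqrt 6 := Real.sqrt_pos.2 (by norm_num)

theorem rhoC_eq : rhoC = 1 / 2 - Real.sqrt 6 / 6 := by
  unfold rhoC
  have h := sqrt6_sq
  have h' := sqrt6_pos
  have : 1 / Real.sqrt 6 = Real.sqrt 6 / 6 := by
    rw [div_eq_div_iff h'.ne' (by norm_num)]
    nlinarith
  rw [this]

theorem sqrt6_lt : Real.sqrt 6 < 245 / 100 := by
  have h := sqrt6_sq
  have h' := sqrt6_pos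
  nlinarith

theorem lt_sqrt6 : 2449 / 1000 < Real.sqrt 6 := by
  have h := sqrt6_sq
  have h' := sqrt6_pos
  nlinarith

theorem rhoC_quad : 12 * rhoC ^ 2 - 12 * rhoC + 1 = 0 := by
  rw [rhoC_eq]
  have h := sqrt6_sq
  nlinarith

theorem rhoC_gt : 91 / 1000 < rhoC := by
  rw [rhoC_eq]
  have := sqrt6_lt
  linarith

theorem rhoC_lt : rhoC < 92 / 1000 := by
  rw [rhoC_eq]
  have := lt_sqrt6
  linarith

/-- The main estimate for the parameters. -/
theorem numeric_main {f0 : ℝ} (hf0a : 0 ≤ f0) (hf0b : f0 ≤ 1 - 6 * rhoC) :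
    3 * f0 / (2 + f0) ≤ 6 * rhoC := by
  have hq := rhoC_quad
  have hrc2 := rhoC_lt
  rw [div_le_iff₀ (by linarith)]
  have h3 : (3 - 6 * rhoC) * f0 ≤ (3 - 6 * rhoC) * (1 - 6 * rhoC) :=
    mul_le_mul_of_nonneg_left hf0b (by linarith)
  nlinarith

theorem numeric_big {x s r m : ℝ} (hs : 1000 ≤ s) (hx : x = s ^ 2)
    (hr : rhoC * x ^ 2 + 4 * (x * s) ≤ r) (hm : 1 / 2 * s ≤ m) :
    ((6 * rhoC + 12 / s) / 6 * x ^ 2 + x) * m < (r - 3 * x) * (m - 1) := by
  have hrc1 := rhoC_gt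
  have hrc2 := rhoC_lt
  have hs0 : 0 < s := by linarith
  have hx0 : 0 < x := by rw [hx]; positivity
  have h6 : (rhoC * x ^ 2 + 4 * (x * s) - 3 * x) * (m - 1) ≤ (r - 3 * x) * (m - 1) := by
    apply mul_le_mul_of_nonneg_right _ (by linarith)
    linarith
  refine lt_of_lt_of_le ?_ h6
  have h7 : (6 * rhoC + 12 / s) / 6 * x ^ 2 + x = rhoC * x ^ 2 + 2 * (x * s) + x := by
    rw [hx]
    field_simp
    ring
  rw [h7]
  have h8 : rhoC * x + 4 * s - 3 < m * (2 * s - 4) := by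
    have h9 : 1 / 2 * s * (2 * s - 4) ≤ m * (2 * s - 4) :=
      mul_le_mul_of_nonneg_right hm (by linarith)
    have h10 : rhoC * x ≤ 92 / 1000 * x := mul_le_mul_of_nonneg_right hrc2.le hx0.le
    have h11 : 1000 * s ≤ x := by rw [hx]; nlinarith
    have h12 : 1 / 2 * s * (2 * s - 4) = x - 2 * s := by rw [hx]; ring
    linarith
  have h9 : x * (rhoC * x + 4 * s - 3) < x * (m * (2 * s - 4)) := mul_lt_mul_of_pos_left h8 hx0
  linarith [h9]

/-- The choice of the parameters in the induction step. -/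
theorem numeric_step : ∀ x : ℕ, 1000000 ≤ x → ∃ K m y : ℕ,
      m ≤ y ∧ x = m * K + y ∧ 0 < x ∧ (43 : ℝ) / 100 ≤ (y : ℝ) / x ∧ (y : ℝ) / x ≤ 46 / 100 ∧
      3 * ((y : ℝ) / x) / (2 + (y : ℝ) / x) + 20 * ((m : ℝ) / x) ≤
        6 * rhoC + 12 / Real.sqrt x ∧
      0 < m ∧ ((m * K : ℕ) : ℝ) + 6 ≤ 6 * rhoC * x + 18 * Real.sqrt x ∧
      ∀ r : ℕ, rhoC * (x : ℝ) ^ 2 + 4 * (x * Real.sqrt x) ≤ r → 3 * x ≤ r ∧
      ((6 * rhoC + 12 / Real.sqrt x) / 6 * (x : ℝ) ^ 2 + x) * m <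
        ((r : ℝ) - 3 * x) * (m - 1) := by
  intro x hx
  have hrc1 := rhoC_gt
  have hrc2 := rhoC_lt
  have hxr : (1000000 : ℝ) ≤ x := by exact_mod_cast hx
  obtain ⟨s, hsdef⟩ : ∃ s : ℝ, s = Real.sqrt x := ⟨_, rfl⟩
  rw [← hsdef]
  have hs2 : (x : ℝ) = s ^ 2 := by
    rw [hsdef, Real.sq_sqrt (Nat.cast_nonneg x)]
  have hs : 1000 ≤ s := by
    rw [hsdef]
    apply Real.le_sqrt_of_sq_le
    have h3 : (1000 : ℝ) ^ 2 = 1000000 := by norm_num
    rw [h3]
    exact hxr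
  have hs0 : 0 < s := by linarith
  have hxpos : (0 : ℝ) < x := by linarith
  have hsx : 1000 * s ≤ x := by rw [hs2]; nlinarith
  obtain ⟨K, hKdef⟩ : ∃ K : ℕ, K = ⌈s⌉₊ := ⟨_, rfl⟩
  have hK1 : s ≤ K := by rw [hKdef]; exact Nat.le_ceil s
  have hK2 : (K : ℝ) < s + 1 := by rw [hKdef]; exact Nat.ceil_lt_add_one hs0.le
  have hKpos : (0 : ℝ) < K := by linarith
  have h6ρ0 : 91 / 1000 * (x : ℝ) ≤ rhoC * x := mul_le_mul_of_nonneg_right hrc1.le hxpos.le
  have h6ρ : rhoC * x ≤ 92 / 1000 * x := mul_le_mul_of_nonneg_right hrc2.le hxpos.le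
  have hnum : 0 ≤ (6 * rhoC * x + 18 * s - 6) / K := by
    apply div_nonneg _ hKpos.le
    linarith
  obtain ⟨m, hmdef⟩ : ∃ m : ℕ, m = ⌊(6 * rhoC * x + 18 * s - 6) / K⌋₊ := ⟨_, rfl⟩
  have hm1 : (m : ℝ) ≤ (6 * rhoC * x + 18 * s - 6) / K := by
    rw [hmdef]; exact Nat.floor_le hnum
  have hm2 : (6 * rhoC * x + 18 * s - 6) / K < m + 1 := by
    rw [hmdef]; exact Nat.lt_floor_add_one _
  have hm3 : (m : ℝ) * K ≤ 6 * rhoC * x + 18 * s - 6 := by
    rw [le_div_iff₀ hKpos] at hm1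
    exact hm1
  have hm4 : 6 * rhoC * x + 18 * s - 6 < ((m : ℝ) + 1) * K := by
    rw [div_lt_iff₀ hKpos] at hm2
    exact hm2
  have hm5 : 6 * rhoC * x < (m : ℝ) * K := by linarith
  have hmpos : (0 : ℝ) < m := by
    have : 0 < (m : ℝ) * K := by linarith
    exact (pos_iff_pos_of_mul_pos this).2 hKpos
  have hms : (m : ℝ) * s ≤ m * K := mul_le_mul_of_nonneg_left hK1 hmpos.le
  have hmhalf : 1 / 2 * s ≤ m := by
    by_contra hcon
    push Not at hcon
    have h3 : (m : ℝ) * K ≤ (1 / 2 * s) * (s + 1) :=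
      mul_le_mul hcon.le hK2.le hKpos.le (by linarith)
    have h4 : (1 / 2 * s) * (s + 1) = 1 / 2 * x + 1 / 2 * s := by rw [hs2]; ring
    linarith
  have hmKx : m * K ≤ x := by
    have : ((m * K : ℕ) : ℝ) ≤ x := by
      push_cast
      linarith
    exact_mod_cast this
  obtain ⟨y, hy⟩ : ∃ y, x = m * K + y := ⟨x - m * K, by omega⟩
  have hyr : (x : ℝ) = m * K + y := by exact_mod_cast hy
  have hy1 : 43 / 100 * (x : ℝ) ≤ y := by linarith
  have hmy : (m : ℝ) ≤ y := by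
    have h5 : (m : ℝ) * 1000 ≤ m * s := mul_le_mul_of_nonneg_left hs hmpos.le
    linarith
  have hy2 : (y : ℝ) ≤ (1 - 6 * rhoC) * x := by linarith
  have hf0a : 43 / 100 ≤ (y : ℝ) / x := by
    rw [le_div_iff₀ hxpos]
    exact hy1
  have hf0b : (y : ℝ) / x ≤ 1 - 6 * rhoC := by
    rw [div_le_iff₀ hxpos]
    exact hy2
  have hφ : 20 * ((m : ℝ) / x) ≤ 12 / s := by
    rw [← mul_div_assoc, div_le_div_iff₀ hxpos hs0]
    linarith
  refine ⟨K, m, y, ?_, hy, ?_, hf0a, ?_, ?_, ?_, ?_, ?_⟩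
  · exact_mod_cast hmy
  · exact_mod_cast hxpos
  · linarith
  · have := numeric_main (le_trans (by norm_num) hf0a) hf0b
    linarith
  · exact_mod_cast hmpos
  · push_cast
    linarith
  · intro r hr
    constructor
    · have h5 : (3 * (x : ℝ)) ≤ r := by
        have h7 : (x : ℝ) * 1 ≤ x * s := mul_le_mul_of_nonneg_left (by linarith) hxpos.le
        have h8 : 0 ≤ rhoC * (x : ℝ) ^ 2 := mul_nonneg (by linarith) (by positivity)
        linarith
      exact_mod_cast h5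
    · exact numeric_big hs hs2 hr hmhalf

theorem sqrt_step (x : ℕ) : (x : ℝ) * Real.sqrt x + 9 / 2 * Real.sqrt x ≤
    ((x : ℝ) + 3) * Real.sqrt ((x : ℝ) + 3) := by
  obtain ⟨s, hsdef⟩ : ∃ s : ℝ, s = Real.sqrt x := ⟨_, rfl⟩
  obtain ⟨t, htdef⟩ : ∃ t : ℝ, t = Real.sqrt ((x : ℝ) + 3) := ⟨_, rfl⟩
  rw [← hsdef, ← htdef]
  have hx0 : (0 : ℝ) ≤ x := Nat.cast_nonneg x
  have hs2 : s ^ 2 = x := by rw [hsdef, Real.sq_sqrt hx0]
  have ht2 : t ^ 2 = x + 3 := by rw [htdef, Real.sq_sqrt (by linarith)]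
  have hs0 : 0 ≤ s := by rw [hsdef]; exact Real.sqrt_nonneg _
  have ht0 : 0 ≤ t := by rw [htdef]; exact Real.sqrt_nonneg _
  have h1 : (x : ℝ) * s + 9 / 2 * s = s * (x + 9 / 2) := by ring
  rw [h1]
  apply le_of_sq_le_sq _ (by positivity)
  have e1 : (s * ((x : ℝ) + 9 / 2)) ^ 2 = x * (x + 9 / 2) ^ 2 := by
    rw [mul_pow, hs2]
  have e2 : (((x : ℝ) + 3) * t) ^ 2 = (x + 3) ^ 3 := by
    rw [mul_pow, ht2]; ring
  rw [e1, e2]
  nlinarith

end Numeric

/-- `rhoC * v ^ 2 + 4 * v ^ (3 / 2) + C` points suffice. -/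
theorem full_bound : ∃ C : ℝ, 0 ≤ C ∧ ∀ v r : ℕ,
    rhoC * (v : ℝ) ^ 2 + 4 * (v * Real.sqrt v) + C ≤ r → Full (Fin v) r := by
  have hρ0 : 0 < rhoC := by
    have := rhoC_gt
    linarith
  obtain ⟨x0, hx0⟩ : ∃ x0 : ℕ, x0 = 1000000 := ⟨_, rfl⟩
  have hstep := numeric_step
  rw [← hx0] at hstep
  refine ⟨((x0 : ℝ) + 3) ^ 2, by positivity, ?_⟩
  intro v
  induction v using Nat.strong_induction_on with
  | _ v ih =>
    intro r hr
    by_cases hv : v < x0 + 3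
    · apply Full.mono _ (full_trivial v)
      have h3 : v * (v + 1) / 2 ≤ (x0 + 3) ^ 2 := by
        apply Nat.div_le_of_le_mul
        nlinarith
      have h4 : (((x0 + 3) ^ 2 : ℕ) : ℝ) ≤ r := by
        push_cast
        have : 0 ≤ rhoC * (v : ℝ) ^ 2 := by positivity
        have : 0 ≤ (v : ℝ) * Real.sqrt v := by positivity
        linarith
      have h5 : (x0 + 3) ^ 2 ≤ r := by exact_mod_cast h4
      exact h3.trans h5
    · push Not at hv
      obtain ⟨x, rfl⟩ : ∃ x, v = x + 3 := ⟨v - 3, by omega⟩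
      have hx : x0 ≤ x := by omega
      obtain ⟨K, m, y, hmy, hxy, hxpos, hf0a, hf0b, hmain, hmK, hmK6, hall⟩ := hstep x hx
      have hsq := sqrt_step x
      have hrx : rhoC * (x : ℝ) ^ 2 + 4 * (x * Real.sqrt x) + ((x0 : ℝ) + 3) ^ 2 +
          (6 * rhoC * x + 18 * Real.sqrt x) ≤ r := by
        push_cast at hr
        nlinarith
      have hpos1 : 0 ≤ rhoC * (x : ℝ) ^ 2 + 4 * (x * Real.sqrt x) + ((x0 : ℝ) + 3) ^ 2 := by
        positivity
      have hmr : m * K + 6 ≤ r := by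
        have h3 : ((m * K + 6 : ℕ) : ℝ) ≤ r := by
          push_cast at hmK6 ⊢
          linarith
        exact_mod_cast h3
      obtain ⟨r', hr'⟩ : ∃ r', r = r' + m * K + 6 := ⟨r - (m * K + 6), by omega⟩
      have hr'r : (r : ℝ) = r' + ((m * K : ℕ) : ℝ) + 6 := by
        rw [hr']
        push_cast
        ring
      have hr2 : rhoC * (x : ℝ) ^ 2 + 4 * (x * Real.sqrt x) + ((x0 : ℝ) + 3) ^ 2 ≤ r' := by
        linarith
      have hr3 : rhoC * (x : ℝ) ^ 2 + 4 * (x * Real.sqrt x) ≤ r' := by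
        have : 0 ≤ ((x0 : ℝ) + 3) ^ 2 := by positivity
        linarith
      obtain ⟨h3r, hbig⟩ := hall r' hr3
      have hF := ih x (by omega) r' hr2
      rw [hr']
      exact full_step hmy hxy hxpos hf0a hf0b hmain hmK h3r hbig hF

end Pool.Agent.Helper93.TP
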