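import Mathlib
import Pool.Agent.Helper93.TP.Induct
import Pool.Agent.Helper16.TP.Bridge1
import Pool.Agent.Helper97.TP.Bridge2

/-!
The asymptotic determination of the Hilbert function of general triple points in degree `4`.
-/

namespace Pool.Agent.Helper93.TP

open MvPolynomial Module

theorem genHilb_three {n r d : ℕ} (hd : 2 ≤ d) :
    GenHilb n r 3 d (rk (Fin (n + 1)) d r) :=
  genHilb_three_of @mem_ptIdeal_pow_three hd

theorem finrank_homog_two (v : ℕ) :
    finrank ℂ (homogeneousSubmodule (Fin (v + 1)) ℂ 2) = (v + 2).choose 2 := by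
  rw [finrank_homog, Fintype.card_fin, Nat.multichoose_eq]
  rfl

theorem finrank_homog_four (v : ℕ) :
    finrank ℂ (homogeneousSubmodule (Fin (v + 1)) ℂ 4) = (v + 4).choose 4 := by
  rw [finrank_homog, Fintype.card_fin, Nat.multichoose_eq]
  rfl

theorem choose_two_real (k : ℕ) : ((k.choose 2 : ℕ) : ℝ) = (k : ℝ) * (k - 1) / 2 :=
  Nat.cast_choose_two ℝ k

theorem choose_four_real (v : ℕ) : (((v + 4).choose 4 : ℕ) : ℝ) =
    ((v : ℝ) + 4) * (v + 3) * (v + 2) * (v + 1) / 24 := by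
  have h := Nat.descFactorial_eq_factorial_mul_choose (v + 4) 4
  have h1 : (v + 4).descFactorial 4 = (v + 1) * ((v + 2) * ((v + 3) * (v + 4))) := by
    simp only [Nat.descFactorial]
    have e1 : v + 4 - 3 = v + 1 := by omega
    have e2 : v + 4 - 2 = v + 2 := by omega
    have e3 : v + 4 - 1 = v + 3 := by omega
    rw [e1, e2, e3]
    simp
  rw [h1] at h
  have h2 : (Nat.factorial 4 : ℕ) = 24 := rfl
  rw [h2] at h
  have h3 : (((v + 1) * ((v + 2) * ((v + 3) * (v + 4))) : ℕ) : ℝ) =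
      ((24 * (v + 4).choose 4 : ℕ) : ℝ) := by rw [h]
  push_cast at h3
  linarith

/-- Numerical facts about the first full size. -/
theorem first_full (n : ℕ) (r : ℕ) : ∃ R : ℕ, Full (Fin (n + 1)) R ∧
    (∀ t, t < R → ¬ Full (Fin (n + 1)) t) ∧
    ((n + 4).choose 4 + R.choose 2 ≤ R * (n + 2).choose 2) ∧
    (r ≤ R → (rk (Fin (n + 1)) 4 r + r.choose 2 = r * (n + 2).choose 2) ∨
      ((n + 4).choose 4 + R.choose 2 + (R - r + 2).choose 2 ≤ R * (n + 2).choose 2)) := by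
  classical
  have hex : ∃ R, Full (Fin (n + 1)) R := ⟨_, full_trivial (n + 1)⟩
  obtain ⟨R, hR1, hR2⟩ : ∃ R, Full (Fin (n + 1)) R ∧ ∀ t, t < R → ¬ Full (Fin (n + 1)) t :=
    ⟨Nat.find hex, Nat.find_spec hex, fun t ht => Nat.find_min hex ht⟩
  refine ⟨R, hR1, hR2, ?_, ?_⟩
  · have h1 := quartic_growth (σ := Fin (n + 1)) 0 (le_refl R) hR2
    rw [(full_iff_Dm (Fin (n + 1)) R).1 hR1, finrank_homog_two, finrank_homog_four] at h1
    rcases h1 with h1 | h1 <;> omega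
  · intro hr
    have h1 := quartic_growth (σ := Fin (n + 1)) 0 hr hR2
    rw [(full_iff_Dm (Fin (n + 1)) R).1 hR1, finrank_homog_two, finrank_homog_four,
      ← rk_eq_Dm] at h1
    exact h1

theorem rk_of_full {n r : ℕ} (h : Full (Fin (n + 1)) r) :
    rk (Fin (n + 1)) 4 r = (n + 4).choose 4 := by
  rw [rk_eq_Dm, (full_iff_Dm (Fin (n + 1)) r).1 h, finrank_homog_four]

/-- The real-variable inequality behind the lower range. -/
theorem real_ineq {v R r C w : ℝ} (hw : 1 ≤ w) (hv : v = w ^ 4) (hC : 0 ≤ C)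
    (hR0 : 0 ≤ R)
    (hup : R ≤ rhoC * v ^ 2 + 4 * w ^ 6 + C + 1)
    (hM : v * (v + 1) * (v + 2) * (v + 3) / 24 + R * (R - 1) / 2 ≤ R * (v * (v + 1) / 2))
    (halt : R < r ∨ (r ≤ R ∧ v * (v + 1) * (v + 2) * (v + 3) / 24 + R * (R - 1) / 2 +
      (R - r + 2) * (R - r + 1) / 2 ≤ R * (v * (v + 1) / 2))) :
    rhoC * v ^ 2 - (20 + 3 * C) * w ^ 7 < r := by
  have hq := rhoC_quad
  have hrc1 := rhoC_gt
  have hrc2 := rhoC_lt
  have hw0 : 0 < w := by linarith
  have hv1 : 1 ≤ v := by rw [hv]; exact one_le_pow₀ hw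
  have hv0 : 0 < v := by linarith
  have hvw : v ≤ w ^ 7 := by
    rw [hv]; exact pow_le_pow_right₀ hw (by norm_num)
  have hw7 : 0 < w ^ 7 := by positivity
  obtain ⟨z, hz⟩ : ∃ z, z = R - rhoC * v ^ 2 := ⟨_, rfl⟩
  have hRz : R = rhoC * v ^ 2 + z := by rw [hz]; ring
  have hv4 : v ^ 4 ≤ v * (v + 1) * (v + 2) * (v + 3) := by
    have : v * (v + 1) * (v + 2) * (v + 3) - v ^ 4 = 6 * v ^ 3 + 11 * v ^ 2 + 6 * v := by ring
    have h2 : 0 ≤ 6 * v ^ 3 + 11 * v ^ 2 + 6 * v := by positivity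
    linarith
  have hid : R * (v * (v + 1) / 2) - R * (R - 1) / 2 - v ^ 4 / 24 =
      z * v ^ 2 * (1 / 2 - rhoC) - z ^ 2 / 2 + R * (v + 1) / 2 := by
    rw [hRz]
    linear_combination (-(v ^ 4 / 24)) * hq
  have hlow : -v ≤ z := by
    by_contra hcon
    push Not at hcon
    have h1 : 0 ≤ z * v ^ 2 * (1 / 2 - rhoC) - z ^ 2 / 2 + R * (v + 1) / 2 := by linarith
    have h2 : z * v ^ 2 * (1 / 2 - rhoC) ≤ -v * v ^ 2 * (1 / 2 - rhoC) := by
      apply mul_le_mul_of_nonneg_right _ (by linarith)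
      exact mul_le_mul_of_nonneg_right hcon.le (by positivity)
    have h3 : -v * v ^ 2 * (1 / 2 - rhoC) ≤ - (4 / 10 * v ^ 3) := by
      have h4 : 0 ≤ v ^ 3 * (1 / 2 - rhoC - 4 / 10) := mul_nonneg (by positivity) (by linarith)
      linarith
    have h4 : R * (v + 1) / 2 ≤ 92 / 1000 * v ^ 3 := by
      have h5 : R ≤ 92 / 1000 * v ^ 2 := by
        have h6 : rhoC * v ^ 2 ≤ 92 / 1000 * v ^ 2 :=
          mul_le_mul_of_nonneg_right hrc2.le (by positivity)
        linarith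
      have h7 : R * (v + 1) ≤ (92 / 1000 * v ^ 2) * (2 * v) :=
        mul_le_mul h5 (by linarith) (by linarith) (by positivity)
      linarith
    have h5 : 0 < v ^ 3 := by positivity
    have h6 : 0 ≤ z ^ 2 := sq_nonneg z
    linarith
  have hRlow : rhoC * v ^ 2 - w ^ 7 ≤ R := by linarith
  have hCw : 0 ≤ C * w ^ 7 := by positivity
  rcases halt with hlt | ⟨hle, h1⟩
  · linarith
  · have h2 : (R - r) ^ 2 ≤ (17 + 3 * C) * w ^ 14 := by
      have h3 : (R - r) ^ 2 / 2 ≤ (R - r + 2) * (R - r + 1) / 2 := by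
        have : (R - r + 2) * (R - r + 1) - (R - r) ^ 2 = 3 * (R - r) + 2 := by ring
        linarith
      have h4 : z * v ^ 2 * (1 / 2 - rhoC) ≤ (5 + C) / 2 * w ^ 14 := by
        have h5 : z ≤ (5 + C) * w ^ 6 := by
          have h6 : 1 ≤ w ^ 6 := one_le_pow₀ hw
          have h7 : C * 1 ≤ C * w ^ 6 := mul_le_mul_of_nonneg_left h6 hC
          linarith
        have h8 : z * (v ^ 2 * (1 / 2 - rhoC)) ≤
            ((5 + C) * w ^ 6) * (v ^ 2 * (1 / 2 - rhoC)) :=
          mul_le_mul_of_nonneg_right h5 (mul_nonneg (by positivity) (by linarith))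
        have h9 : ((5 + C) * w ^ 6) * (v ^ 2 * (1 / 2 - rhoC)) ≤
            ((5 + C) * w ^ 6) * (v ^ 2 * (1 / 2)) := by
          apply mul_le_mul_of_nonneg_left _ (by positivity)
          apply mul_le_mul_of_nonneg_left _ (by positivity)
          linarith
        have h10 : ((5 + C) * w ^ 6) * (v ^ 2 * (1 / 2)) = (5 + C) / 2 * w ^ 14 := by
          rw [hv]; ring
        linarith
      have h5 : R * (v + 1) / 2 ≤ (6 + C) * w ^ 14 := by
        have h6 : R ≤ (6 + C) * w ^ 8 := by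
          have h7 : 1 ≤ w ^ 8 := one_le_pow₀ hw
          have h8 : w ^ 6 ≤ w ^ 8 := pow_le_pow_right₀ hw (by norm_num)
          have h9 : C * 1 ≤ C * w ^ 8 := mul_le_mul_of_nonneg_left h7 hC
          have h10 : rhoC * v ^ 2 ≤ 92 / 1000 * v ^ 2 :=
            mul_le_mul_of_nonneg_right hrc2.le (by positivity)
          have h11 : v ^ 2 = w ^ 8 := by rw [hv]; ring
          rw [h11] at h10 hup
          linarith
        have h7 : R * (v + 1) ≤ ((6 + C) * w ^ 8) * (2 * w ^ 4) := by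
          apply mul_le_mul h6 _ (by linarith) (by positivity)
          rw [← hv]
          linarith
        have h8 : ((6 + C) * w ^ 8) * (2 * w ^ 4) = 2 * ((6 + C) * w ^ 12) := by ring
        have h9 : (6 + C) * w ^ 12 ≤ (6 + C) * w ^ 14 :=
          mul_le_mul_of_nonneg_left (pow_le_pow_right₀ hw (by norm_num)) (by linarith)
        linarith
      have h6 : 0 ≤ z ^ 2 := sq_nonneg z
      linarith
    have h3 : R - r ≤ (17 + 3 * C) * w ^ 7 := by
      apply le_of_sq_le_sq _ (by positivity)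
      have h4 : ((17 + 3 * C) * w ^ 7) ^ 2 = (17 + 3 * C) * ((17 + 3 * C) * w ^ 14) := by ring
      have h5 : 0 ≤ (17 + 3 * C) * w ^ 14 := by positivity
      have h6 : (17 + 3 * C) * w ^ 14 * 1 ≤ (17 + 3 * C) * w ^ 14 * (17 + 3 * C) :=
        mul_le_mul_of_nonneg_left (by linarith) h5
      linarith
    linarith

/-- Powers of `n ^ (1 / 4)`. -/
theorem fourth_root (n : ℕ) : ∃ a : ℝ, 0 ≤ a ∧ a ^ 4 = n ∧ a ^ 7 = (n : ℝ) ^ (7 / 4 : ℝ) ∧
    a ^ 6 = (n : ℝ) ^ (3 / 2 : ℝ) := by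
  have hn : (0 : ℝ) ≤ n := Nat.cast_nonneg n
  refine ⟨(n : ℝ) ^ (1 / 4 : ℝ), Real.rpow_nonneg hn _, ?_, ?_, ?_⟩
  · rw [← Real.rpow_natCast, ← Real.rpow_mul hn]
    norm_num
  · rw [← Real.rpow_natCast, ← Real.rpow_mul hn]
    norm_num
  · rw [← Real.rpow_natCast, ← Real.rpow_mul hn]
    norm_num

theorem root_compare {a w n : ℝ} (ha : 0 ≤ a) (hw : 0 ≤ w) (han : a ^ 4 = n) (hn : 1 ≤ n)
    (hwn : w ^ 4 = n + 1) : w ^ 7 ≤ 4 * a ^ 7 ∧ w ^ 6 ≤ 4 * a ^ 6 := by
  have h4 : w ^ 4 ≤ 2 * a ^ 4 := by rw [han, hwn]; linarith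
  have h2 : w ^ 2 ≤ 3 / 2 * a ^ 2 := by
    apply le_of_sq_le_sq _ (by positivity)
    have e1 : (w ^ 2) ^ 2 = w ^ 4 := by ring
    have e2 : (3 / 2 * a ^ 2) ^ 2 = 9 / 4 * a ^ 4 := by ring
    rw [e1, e2]
    have : 0 ≤ a ^ 4 := by positivity
    linarith
  have h1 : w ≤ 5 / 4 * a := by
    apply le_of_sq_le_sq _ (by positivity)
    have e2 : (5 / 4 * a) ^ 2 = 25 / 16 * a ^ 2 := by ring
    rw [e2]
    have : 0 ≤ a ^ 2 := by positivity
    linarith
  have h6 : w ^ 6 ≤ 3 * a ^ 6 := by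
    have : w ^ 4 * w ^ 2 ≤ (2 * a ^ 4) * (3 / 2 * a ^ 2) :=
      mul_le_mul h4 h2 (by positivity) (by positivity)
    have e1 : w ^ 4 * w ^ 2 = w ^ 6 := by ring
    have e2 : (2 * a ^ 4) * (3 / 2 * a ^ 2) = 3 * a ^ 6 := by ring
    rw [e1, e2] at this
    exact this
  constructor
  · have : w ^ 6 * w ≤ (3 * a ^ 6) * (5 / 4 * a) := mul_le_mul h6 h1 hw (by positivity)
    have e1 : w ^ 6 * w = w ^ 7 := by ring
    have e2 : (3 * a ^ 6) * (5 / 4 * a) = 15 / 4 * a ^ 7 := by ring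
    rw [e1, e2] at this
    have : 0 ≤ a ^ 7 := by positivity
    linarith
  · have : 0 ≤ a ^ 6 := by positivity
    linarith

/-- The main theorem. -/
theorem quartic_main : ∃ C : ℝ, 0 < C ∧ ∀ n r : ℕ, 1 ≤ n →
    ((r : ℝ) ≤ rhoC * (n : ℝ) ^ 2 - C * (n : ℝ) ^ (7 / 4 : ℝ) →
      GenHilb n r 3 4 (r * (n + 2).choose 2 - r.choose 2)) ∧
    (rhoC * (n : ℝ) ^ 2 + C * (n : ℝ) ^ (3 / 2 : ℝ) ≤ (r : ℝ) →
      GenHilb n r 3 4 ((n + 4).choose 4)) := by
  obtain ⟨C, hC, hfull⟩ := full_bound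
  refine ⟨4 * (20 + 3 * C), by positivity, ?_⟩
  intro n r hn
  have hnr : (1 : ℝ) ≤ n := by exact_mod_cast hn
  obtain ⟨a, ha0, ha4, ha7, ha6⟩ := fourth_root n
  obtain ⟨w, hw0, hw4, _, _⟩ := fourth_root (n + 1)
  have hwn : w ^ 4 = (n : ℝ) + 1 := by rw [hw4]; push_cast; ring
  obtain ⟨hc7, hc6⟩ := root_compare ha0 hw0 ha4 hnr hwn
  rw [← ha7, ← ha6]
  have hw1 : 1 ≤ w := by
    by_contra hcon
    push Not at hcon
    have : w ^ 4 ≤ 1 := pow_le_one₀ hw0 hcon.le
    linarith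
  have hsqrt : Real.sqrt ((n : ℝ) + 1) = w ^ 2 := by
    rw [← hwn]
    have : w ^ 4 = (w ^ 2) ^ 2 := by ring
    rw [this, Real.sqrt_sq (by positivity)]
  have hw6 : ((n : ℝ) + 1) * Real.sqrt ((n : ℝ) + 1) = w ^ 6 := by
    rw [hsqrt, ← hwn]; ring
  have hgen := genHilb_three (n := n) (r := r) (d := 4) (by norm_num)
  have hrc1 := rhoC_gt
  have hrc2 := rhoC_lt
  have hrc0 : 0 < rhoC := by linarith
  constructor
  · intro hr
    obtain ⟨R, hR1, hR2, hR3, hR4⟩ := first_full n r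
    have hRup : (R : ℝ) ≤ rhoC * ((n : ℝ) + 1) ^ 2 + 4 * w ^ 6 + C + 1 := by
      by_contra hcon
      push Not at hcon
      have hRpos : 1 ≤ R := by
        have h1 : (0 : ℝ) < R := by
          have : 0 ≤ rhoC * ((n : ℝ) + 1) ^ 2 + 4 * w ^ 6 + C + 1 := by positivity
          linarith
        have h2 : 0 < R := by exact_mod_cast h1
        exact h2
      apply hR2 (R - 1) (by omega)
      apply hfull
      rw [Nat.cast_sub hRpos]
      push_cast
      rw [hw6]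
      linarith
    have hM : (((n + 4).choose 4 + R.choose 2 : ℕ) : ℝ) ≤
        ((R * (n + 2).choose 2 : ℕ) : ℝ) := by exact_mod_cast hR3
    have c2 : (((n + 2).choose 2 : ℕ) : ℝ) = ((n : ℝ) + 1) * ((n : ℝ) + 1 + 1) / 2 := by
      rw [choose_two_real]
      push_cast
      ring
    have c4 : (((n + 4).choose 4 : ℕ) : ℝ) = ((n : ℝ) + 1) * ((n : ℝ) + 1 + 1) *
        ((n : ℝ) + 1 + 2) * ((n : ℝ) + 1 + 3) / 24 := by
      rw [choose_four_real]
      ring
    rw [Nat.cast_add, Nat.cast_mul, c2, c4, choose_two_real] at hM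
    have hn7 : 0 ≤ a ^ 7 := by positivity
    have hkey : ¬ (rhoC * ((n : ℝ) + 1) ^ 2 - (20 + 3 * C) * w ^ 7 < r) := by
      push Not
      have h1 : (20 + 3 * C) * w ^ 7 ≤ (20 + 3 * C) * (4 * a ^ 7) :=
        mul_le_mul_of_nonneg_left hc7 (by positivity)
      have h2 : rhoC * (n : ℝ) ^ 2 ≤ rhoC * ((n : ℝ) + 1) ^ 2 :=
        mul_le_mul_of_nonneg_left (by nlinarith) hrc0.le
      linarith
    have hrR : r ≤ R := by
      by_contra hcon
      push Not at hcon
      apply hkey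
      exact real_ineq hw1 hwn.symm hC (Nat.cast_nonneg R) hRup hM
        (Or.inl (by exact_mod_cast hcon))
    rcases hR4 hrR with h1 | h1
    · have h2 : rk (Fin (n + 1)) 4 r = r * (n + 2).choose 2 - r.choose 2 := by omega
      rw [h2] at hgen
      exact hgen
    · exfalso
      apply hkey
      refine real_ineq hw1 hwn.symm hC (Nat.cast_nonneg R) hRup hM
        (Or.inr ⟨by exact_mod_cast hrR, ?_⟩)
      have h2 : (((n + 4).choose 4 + R.choose 2 + (R - r + 2).choose 2 : ℕ) : ℝ) ≤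
        ((R * (n + 2).choose 2 : ℕ) : ℝ) := by exact_mod_cast h1
      rw [Nat.cast_add, Nat.cast_add, Nat.cast_mul, c2, c4, choose_two_real, choose_two_real,
        Nat.cast_add, Nat.cast_sub hrR] at h2
      push_cast at h2
      have h3 : ((R : ℝ) - r + 2) * ((R : ℝ) - r + 1) / 2 =
          ((R : ℝ) - r + 2) * ((R : ℝ) - r + 2 - 1) / 2 := by ring
      rw [h3]
      exact h2
  · intro hr
    have h1 : Full (Fin (n + 1)) r := by
      apply hfull
      push_cast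
      rw [hw6]
      have ha61 : 1 ≤ a ^ 6 := by
        have : 1 ≤ a := by
          by_contra hcon
          push Not at hcon
          have : a ^ 4 < 1 := pow_lt_one₀ ha0 hcon (by norm_num)
          linarith
        exact one_le_pow₀ this
      have ha46 : (n : ℝ) ≤ a ^ 6 := by
        rw [← ha4]
        have : 1 ≤ a := by
          by_contra hcon
          push Not at hcon
          have : a ^ 4 < 1 := pow_lt_one₀ ha0 hcon (by norm_num)
          linarith
        exact pow_le_pow_right₀ this (by norm_num)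
      have h2 : C * 1 ≤ C * a ^ 6 := mul_le_mul_of_nonneg_left ha61 hC
      have h3 : rhoC * (2 * (n : ℝ) + 1) ≤ 1 * (2 * (n : ℝ) + 1) :=
        mul_le_mul_of_nonneg_right (by linarith) (by linarith)
      have h4 : rhoC * ((n : ℝ) + 1) ^ 2 = rhoC * (n : ℝ) ^ 2 + rhoC * (2 * n + 1) := by ring
      rw [h4]
      linarith
    rw [rk_of_full h1] at hgen
    exact hgen

end Pool.Agent.Helper93.TP
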